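import Pool.Agent.H57.HV2.Three

/-!
# The labelling with one chain and leaves that are placed backwards
-/

set_option autoImplicit false

namespace Pool.Agent.H57.HV2

open Finset Lob Pool.Agent.H57.HV

theorem asm {V : Type} [Fintype V] [DecidableEq V] (G : SimpleGraph V) (r x y : V) {par : V → V}
    {dep : V → ℕ} (h : Rt G r par dep) (X B T : Finset V) (f : V → V → ℤ) (F R E m : V → ℤ)
    (hX : ∀ v, v ∈ X ↔ v ∉ lv G r ∧ v ≠ r ∧ par v = r) (hB : ∀ v ∈ B, par v ≠ r)
    (hT : ∀ v ∈ T, par v ≠ r) (hall : ∀ v, par v ≠ r → v ∈ B ∨ v ∈ T) (hBT : ∀ v ∈ B, v ∉ T)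
    (hTp : ∀ t ∈ T, par t ∈ B) (hXf : ∀ v ∈ X, f v = un v) (hC : Ch par X B f (un r) F)
    (hBne : B.Nonempty) (hm : 0 < m) (hmf : ∀ t ∈ T, m ≤ f (par t)) (hEm : E - m < 0)
    (hy0 : E y = 0) (hTy : ∀ t ∈ T, f (par t) y = 0)
    (hEF : (F = R ∧ E = un r) ∨ (F = R + un r ∧ E = 0)) (A A' : ℤ)
    (hφ : R r * A - R x * A' = 1 ∨ R r * A - R x * A' = -1) (hR : 1 ≤ R y)
    (hfR : ∀ v, v ∈ X ∨ v ∈ B → f v < R)
    (hfy : T.Nonempty → ∀ v, v ∈ X ∨ v ∈ B → f v y < R y) : CL G r := by
  obtain ⟨g, hg1, hg2, hg3, hg4, hg5⟩ := tok par f m hm T (fun t ht h1 => hBT _ (hTp t ht) h1) hmf E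
  obtain ⟨L, hL⟩ : ∃ L : V → V → ℤ, ∀ v, L v = if v = r then 0 else g v := ⟨_, fun _ => rfl⟩
  have hpr : ∀ v, par v ≠ r → v ≠ r := by
    rintro v hv rfl
    exact hv h.root
  have hL0 : L r = 0 := by rw [hL, if_pos rfl]
  have hLB : ∀ v ∈ B, L v = f v := fun v hv => by
    rw [hL, if_neg (hpr v (hB v hv)), hg1 v (hBT v hv)]
  have hLX : ∀ v ∈ X, L v = f v := fun v hv => by
    have h1 := (hX v).1 hv
    rw [hL, if_neg h1.2.1, hg1 v (fun h2 => hT v h2 h1.2.2)]
  have hLT : ∀ v ∈ T, L v = g v := fun v hv => by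
    rw [hL, if_neg (hpr v (hT v hv))]
  have hLneg : ∀ v ∈ T, L v < 0 := fun v hv => by
    rw [hLT v hv]
    exact lt_of_le_of_lt (hg2 v hv) hEm
  have hLy : ∀ v ∈ T, L v y = 0 := fun v hv => by
    rw [hLT v hv]
    exact hg5 (kc y) hy0 (fun t ht => hTy t ht) v hv
  have hcls : ∀ v, v ∉ lv G r → v = r ∨ (v ∈ X ∨ v ∈ B) ∨ v ∈ T := by
    intro v hv
    by_cases h1 : v = r
    · exact Or.inl h1
    · right
      by_cases h2 : par v = r
      · exact Or.inl (Or.inl ((hX v).2 ⟨hv, h1, h2⟩))
      · rcases hall v h2 with h3 | h3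
        · exact Or.inl (Or.inr h3)
        · exact Or.inr h3
  have hLp : ∀ v, v ∈ X ∨ v ∈ B → L v = f v := by
    rintro v (h1 | h1)
    · exact hLX v h1
    · exact hLB v h1
  have hLpos : ∀ v, v ∈ X ∨ v ∈ B → 0 < L v := fun v hv => by
    rw [hLp v hv]
    exact hC.pos v hv
  have hRpos : 0 < R := by
    obtain ⟨v, hv⟩ := hBne
    exact (hC.pos v (Or.inr hv)).trans (hfR v (Or.inr hv))
  -- the labels are different
  have hinj : ∀ p, p ∉ lv G r → ∀ q, q ∉ lv G r → L p = L q → p = q := by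
    have hXB : ∀ p ∈ X, ∀ q ∈ B, L p ≠ L q := by
      intro p hp q hq e
      rw [hLX p hp, hLB q hq, hXf p hp] at e
      have h1 : un r r ≤ f q r := hC.le q hq r
      rw [← e, un_same, un_ne (fun e => ((hX p).1 hp).2.1 e.symm)] at h1
      omega
    intro p hp q hq e
    rcases hcls p hp with h1 | h1 | h1
    · rcases hcls q hq with h2 | h2 | h2
      · rw [h1, h2]
      · rw [h1, hL0] at e
        exact absurd e (hLpos q h2).ne
      · rw [h1, hL0] at e
        exact absurd e (hLneg q h2).ne'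
    · rcases hcls q hq with h2 | h2 | h2
      · rw [h2, hL0] at e
        exact absurd e (hLpos p h1).ne'
      · rcases h1 with h1 | h1
        · rcases h2 with h2 | h2
          · rw [hLX p h1, hLX q h2, hXf p h1, hXf q h2] at e
            by_contra hne
            have h3 := congrFun e p
            rw [un_same, un_ne hne] at h3
            exact one_ne_zero h3
          · exact absurd e (hXB p h1 q h2)
        · rcases h2 with h2 | h2
          · exact absurd e.symm (hXB q h2 p h1)
          · rw [hLB p h1, hLB q h2] at e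
            exact hC.inj p h1 q h2 e
      · exact absurd e ((hLneg q h2).trans (hLpos p h1)).ne'
    · rcases hcls q hq with h2 | h2 | h2
      · rw [h2, hL0] at e
        exact absurd e (hLneg p h1).ne
      · exact absurd e ((hLneg p h1).trans (hLpos q h2)).ne
      · rw [hLT p h1, hLT q h2] at e
        exact hg3 p h1 q h2 e
  -- the coordinate `y`
  have hyle : ∀ p, p ∉ lv G r → 0 ≤ L p y ∧ L p y ≤ R y := by
    intro p hp
    rcases hcls p hp with h1 | h1 | h1
    · rw [h1, hL0]
      have h2 : (0 : V → ℤ) y = 0 := rfl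
      rw [h2]
      omega
    · rw [hLp p h1]
      have h2 : (0 : V → ℤ) y ≤ f p y := (hC.pos p h1).le y
      have h3 : f p y ≤ R y := (hfR p h1).le y
      exact ⟨h2, h3⟩
    · rw [hLy p h1]
      omega
  have hne : ∀ p, p ∉ lv G r → ∀ q, q ∉ lv G r → L p - L q ≠ R := by
    intro p hp q hq e
    have e1 : L p = L q + R := by rw [← e]; abel
    have ey : L p y = L q y + R y := congrFun e1 y
    rcases hcls q hq with h2 | h2 | h2
    · rcases hcls p hp with h1 | h1 | h1
      · rw [h1, h2, hL0, zero_add] at e1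
        exact hRpos.ne e1
      · rw [h2, hL0, zero_add, hLp p h1] at e1
        exact (hfR p h1).ne e1
      · rw [h2, hL0, hLy p h1] at ey
        have h3 : (0 : V → ℤ) y = 0 := rfl
        omega
    · rcases hcls p hp with h1 | h1 | h1
      · rw [h1, hL0] at e1
        exact absurd e1 (add_pos (hLpos q h2) hRpos).ne
      · rw [hLp p h1] at e1
        have h3 := hfR p h1
        rw [e1] at h3
        exact absurd h3 (lt_add_of_pos_left R (hLpos q h2)).not_gt
      · rw [hLy p h1] at ey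
        have h3 := (hyle q hq).1
        omega
    · rw [hLy q h2, zero_add] at ey
      rcases hcls p hp with h1 | h1 | h1
      · rw [h1, hL0] at ey
        have h3 : (0 : V → ℤ) y = 0 := rfl
        omega
      · rw [hLp p h1] at ey
        have h3 := hfy ⟨q, h2⟩ p h1
        omega
      · rw [hLy p h1] at ey
        omega
  have hmod : ∀ p, p ∉ lv G r → ∀ q, q ∉ lv G r →
      R y • (L p - L q) = ((L p - L q) y) • R → p = q := by
    intro p hp q hq e
    obtain ⟨d, hd⟩ : ∃ d, d = L p - L q := ⟨_, rfl⟩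
    rw [← hd] at e
    have er : R y * d r = d y * R r := congrFun e r
    have ex : R y * d x = d y * R x := congrFun e x
    have hdvd : R y ∣ d y := by
      rcases hφ with h1 | h1
      · exact ⟨d r * A - d x * A', by linear_combination (-d y) * h1 - A * er + A' * ex⟩
      · exact ⟨-(d r * A - d x * A'), by linear_combination (d y) * h1 + A * er - A' * ex⟩
    have hdy : d y = L p y - L q y := by rw [hd]; rfl
    have h1 := hyle p hp
    have h2 := hyle q hq
    obtain ⟨c, hc⟩ := hdvd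
    have hc1 : c ≤ 1 := by
      by_contra hcon
      have h3 : R y * 2 ≤ R y * c := mul_le_mul_of_nonneg_left (by omega) (by omega)
      omega
    have hc2 : -1 ≤ c := by
      by_contra hcon
      have h3 : R y * c ≤ R y * (-2) := mul_le_mul_of_nonneg_left (by omega) (by omega)
      omega
    have hR0 : R y ≠ 0 := by omega
    have hcan : ∀ w w' : V → ℤ, R y • w = R y • w' → w = w' := by
      intro w w' hw
      funext j
      have h3 : R y * w j = R y * w' j := congrFun hw j
      exact mul_left_cancel₀ hR0 h3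
    have hc3 : c = 0 := by
      by_contra hc0
      rcases (by omega : c = 1 ∨ c = -1) with h3 | h3
      · rw [h3, mul_one] at hc
        rw [hc] at e
        exact hne p hp q hq (by rw [← hd]; exact hcan _ _ e)
      · rw [h3] at hc
        rw [hc] at e
        apply hne q hq p hp
        have h4 : L q - L p = -d := by rw [hd]; abel
        rw [h4]
        apply hcan
        rw [smul_neg, e]
        have h5 : R y * -1 = -R y := by ring
        rw [h5, neg_smul, neg_neg]
    rw [hc3, mul_zero] at hc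
    rw [hc, zero_smul] at e
    apply hinj p hp q hq
    have h3 : d = 0 := hcan d 0 (by rw [e, smul_zero])
    rw [hd] at h3
    exact sub_eq_zero.1 h3
  -- the sums
  have hedge : ∀ v, par v ≠ r → v ∉ lv G r ∧ par v ∉ lv G r ∧ G.Adj v (par v) := fun v hv =>
    ⟨not_lv_of_par h hv, not_lv_of_child h (hpr v hv), h.adj v (hpr v hv)⟩
  have hsB : ∀ v ∈ B, L v + L (par v) = f v + f (par v) := fun v hv => by
    rw [hLB v hv, hLp _ (hC.pcl v hv)]
  have hsT : ∀ v ∈ T, L v + L (par v) = g v + g (par v) := fun v hv => by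
    rw [hLT v hv, hLB _ (hTp v hv), hg1 _ (hBT _ (hTp v hv))]
  obtain ⟨yF, hyF, hyF2⟩ : ∃ v ∈ B, f v + f (par v) = F := by
    rcases hC.fin with ⟨h1, _⟩ | h1
    · rw [h1] at hBne
      exact absurd hBne Finset.not_nonempty_empty
    · exact h1
  have covX : ∀ v ∈ X, ∃ a b, a ∉ lv G r ∧ b ∉ lv G r ∧ G.Adj a b ∧ ∃ k : ℤ,
      L a + L b = L v + k • R := by
    intro v hv
    have h1 := (hX v).1 hv
    refine ⟨v, r, h1.1, root_not_lv G r, ?_, 0, by rw [hL0, zero_smul]⟩
    have h2 := h.adj v h1.2.1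
    rwa [h1.2.2] at h2
  have covB : ∀ v ∈ B, f v ≠ un r → ∃ a b, a ∉ lv G r ∧ b ∉ lv G r ∧ G.Adj a b ∧ ∃ k : ℤ,
      L a + L b = L v + k • R := by
    intro v hv hne'
    rcases hC.cov v hv with h1 | ⟨z, hz, h1⟩
    · exact absurd h1 hne'
    · obtain ⟨h2, h3, h4⟩ := hedge z (hB z hz)
      exact ⟨z, par z, h2, h3, h4, 0, by rw [hsB z hz, h1, hLB v hv, zero_smul, add_zero]⟩
  rcases hg4 with hT0 | ⟨D, hD, ⟨t0, ht0, hE0⟩, hDc⟩
  · -- no leaves are placed backwards
    have hTe : ∀ v, v ∉ T := fun v hv => by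
      rw [hT0] at hv
      exact absurd hv (notMem_empty v)
    rcases hEF with ⟨hF, hE⟩ | ⟨hF, hE⟩
    · obtain ⟨z, hz, hz1, _, _, _⟩ : ∃ z ∈ B, f z = un r ∧ par z ∈ X ∧
          (∀ v ∈ B, v ≠ z → un r + f (par z) ≤ f v) ∧ un r + f (par z) ≤ F := by
        rcases hC.fst with h1 | h1
        · rw [h1] at hBne
          exact absurd hBne Finset.not_nonempty_empty
        · exact h1
      refine cl_of_mod G r L R z y (hedge z (hB z hz)).1 hL0
        (fun p hp _ q hq _ e => hmod p hp q hq e) ?_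
      intro v hv hvz
      rcases hcls v hv with h1 | (h1 | h1) | h1
      · obtain ⟨h2, h3, h4⟩ := hedge yF (hB yF hyF)
        exact ⟨yF, par yF, h2, h3, h4, 1, by rw [hsB yF hyF, hyF2, hF, h1, hL0, one_smul, zero_add]⟩
      · exact covX v h1
      · refine covB v h1 (fun e => hvz ?_)
        exact hC.inj v h1 z hz (by rw [e, hz1])
      · exact absurd h1 (hTe v)
    · refine cl_of_mod G r L R r y (root_not_lv G r) hL0
        (fun p hp _ q hq _ e => hmod p hp q hq e) ?_
      intro v hv hvz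
      rcases hcls v hv with h1 | (h1 | h1) | h1
      · exact absurd h1 hvz
      · exact covX v h1
      · by_cases h5 : f v = un r
        · obtain ⟨h2, h3, h4⟩ := hedge yF (hB yF hyF)
          exact ⟨yF, par yF, h2, h3, h4, 1, by
            rw [hsB yF hyF, hyF2, hF, hLB v h1, h5, one_smul, add_comm]⟩
        · exact covB v h1 h5
      · exact absurd h1 (hTe v)
  · refine cl_of_mod G r L R D y (hedge D (hT D hD)).1 hL0
      (fun p hp _ q hq _ e => hmod p hp q hq e) ?_
    intro v hv hvD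
    have hcT : ∀ t ∈ T, g t + g (par t) = L v → ∃ a b, a ∉ lv G r ∧ b ∉ lv G r ∧ G.Adj a b ∧
        ∃ k : ℤ, L a + L b = L v + k • R := by
      intro t ht e
      obtain ⟨h2, h3, h4⟩ := hedge t (hT t ht)
      exact ⟨t, par t, h2, h3, h4, 0, by rw [hsT t ht, e, zero_smul, add_zero]⟩
    have hcF : F = L v + R → ∃ a b, a ∉ lv G r ∧ b ∉ lv G r ∧ G.Adj a b ∧
        ∃ k : ℤ, L a + L b = L v + k • R := by
      intro e
      obtain ⟨h2, h3, h4⟩ := hedge yF (hB yF hyF)
      exact ⟨yF, par yF, h2, h3, h4, 1, by rw [hsB yF hyF, hyF2, e, one_smul]⟩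
    rcases hcls v hv with h1 | (h1 | h1) | h1
    · rcases hEF with ⟨hF, hE⟩ | ⟨hF, hE⟩
      · apply hcF
        rw [h1, hL0, zero_add, hF]
      · apply hcT t0 ht0
        rw [hE0, hE, h1, hL0]
    · exact covX v h1
    · by_cases h5 : f v = un r
      · rcases hEF with ⟨hF, hE⟩ | ⟨hF, hE⟩
        · apply hcT t0 ht0
          rw [hE0, hE, hLB v h1, h5]
        · apply hcF
          rw [hLB v h1, h5, hF, add_comm]
      · exact covB v h1 h5
    · obtain ⟨t, ht, h2⟩ := hDc v h1 hvD
      apply hcT t ht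
      rw [h2, hLT v h1]

end Pool.Agent.H57.HV2
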