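import Pool.Agent.H57.HV2.Rt

/-!
# Chains

The vertices of `B` are placed one after the other, each one next to its parent, which is in `X` or has been placed before. A new
vertex gets the sum of the last edge; the first one gets `b`; `M` is the sum of the last edge.
-/

set_option autoImplicit false

namespace Pool.Agent.H57.HV2

open Finset

variable {V W : Type} [AddCommGroup W] [PartialOrder W]

structure Ch (par : V → V) (X B : Finset V) (f : V → W) (b M : W) : Prop where
  pos : ∀ v, v ∈ X ∨ v ∈ B → 0 < f v
  bpos : 0 < b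
  ble : b ≤ M
  le : ∀ v ∈ B, b ≤ f v
  lt : ∀ v ∈ B, f v < M
  inj : ∀ v ∈ B, ∀ w ∈ B, f v = f w → v = w
  cov : ∀ v ∈ B, f v = b ∨ ∃ y ∈ B, f y + f (par y) = f v
  fin : (B = ∅ ∧ M = b) ∨ ∃ y ∈ B, f y + f (par y) = M
  pcl : ∀ v ∈ B, par v ∈ X ∨ par v ∈ B
  sum : ∀ v ∈ B, f v + f (par v) ≤ M
  fst : B = ∅ ∨ ∃ z ∈ B, f z = b ∧ par z ∈ X ∧ (∀ v ∈ B, v ≠ z → b + f (par z) ≤ f v) ∧
    b + f (par z) ≤ M

theorem Ch.empty (par : V → V) (X : Finset V) (f : V → W) (b : W) (hX : ∀ v ∈ X, 0 < f v)
    (hb : 0 < b) : Ch par X ∅ f b b where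
  pos := by
    rintro v (h | h)
    · exact hX v h
    · exact absurd h (notMem_empty v)
  bpos := hb
  ble := le_rfl
  le := fun v h => absurd h (notMem_empty v)
  lt := fun v h => absurd h (notMem_empty v)
  inj := fun v h => absurd h (notMem_empty v)
  cov := fun v h => absurd h (notMem_empty v)
  fin := Or.inl ⟨rfl, rfl⟩
  pcl := fun v h => absurd h (notMem_empty v)
  sum := fun v h => absurd h (notMem_empty v)
  fst := Or.inl rfl

variable [IsOrderedAddMonoid W]

theorem Ch.step [DecidableEq V] {par : V → V} {X B : Finset V} {f : V → W} {b M : W}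
    (h : Ch par X B f b M) {v : V} (hX : v ∉ X) (hB : v ∉ B) (hp : par v ∈ X ∨ par v ∈ B) :
    Ch par X (insert v B) (Function.update f v M) b (M + f (par v)) := by
  have hpv : par v ≠ v := by
    intro e
    rw [e] at hp
    rcases hp with hp | hp
    · exact hX hp
    · exact hB hp
  have e1 : Function.update f v M v = M := Function.update_self _ _ _
  have e2 : ∀ w, w ≠ v → Function.update f v M w = f w := fun w hw => Function.update_of_ne hw _ _
  have e3 : ∀ w ∈ B, w ≠ v := fun w hw e => hB (e ▸ hw)
  have e4 : ∀ w ∈ X, w ≠ v := fun w hw e => hX (e ▸ hw)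
  have e5 : ∀ w ∈ B, par w ≠ v := by
    intro w hw e
    rcases h.pcl w hw with h1 | h1
    · rw [e] at h1
      exact hX h1
    · rw [e] at h1
      exact hB h1
  have hfp : 0 < f (par v) := h.pos _ hp
  have hM : M < M + f (par v) := lt_add_of_pos_right M hfp
  have hsum : ∀ y ∈ B, Function.update f v M y + Function.update f v M (par y) = f y + f (par y) := by
    intro y hy
    rw [e2 y (e3 y hy), e2 _ (e5 y hy)]
  refine ⟨?_, h.bpos, h.ble.trans hM.le, ?_, ?_, ?_, ?_, ?_, ?_, ?_, ?_⟩
  · intro w hw
    by_cases hwv : w = v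
    · rw [hwv, e1]
      exact lt_of_lt_of_le h.bpos h.ble
    · rw [e2 w hwv]
      apply h.pos
      rcases hw with hw | hw
      · exact Or.inl hw
      · exact Or.inr (mem_of_mem_insert_of_ne hw hwv)
  · intro w hw
    rcases mem_insert.1 hw with rfl | hw
    · rw [e1]
      exact h.ble
    · rw [e2 w (e3 w hw)]
      exact h.le w hw
  · intro w hw
    rcases mem_insert.1 hw with rfl | hw
    · rw [e1]
      exact hM
    · rw [e2 w (e3 w hw)]
      exact (h.lt w hw).trans hM
  · intro w hw w' hw' e
    rcases mem_insert.1 hw with hwv | hw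
    · rcases mem_insert.1 hw' with hwv' | hw'
      · rw [hwv, hwv']
      · rw [hwv, e1, e2 w' (e3 w' hw')] at e
        exact absurd e (h.lt w' hw').ne'
    · rcases mem_insert.1 hw' with hwv' | hw'
      · rw [hwv', e1, e2 w (e3 w hw)] at e
        exact absurd e (h.lt w hw).ne
      · rw [e2 w (e3 w hw), e2 w' (e3 w' hw')] at e
        exact h.inj w hw w' hw' e
  · intro w hw
    rcases mem_insert.1 hw with rfl | hw
    · rw [e1]
      rcases h.fin with ⟨_, h1⟩ | ⟨y, hy, h1⟩
      · exact Or.inl h1
      · right
        exact ⟨y, mem_insert_of_mem hy, by rw [hsum y hy, h1]⟩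
    · rw [e2 w (e3 w hw)]
      rcases h.cov w hw with h1 | ⟨y, hy, h1⟩
      · exact Or.inl h1
      · right
        exact ⟨y, mem_insert_of_mem hy, by rw [hsum y hy, h1]⟩
  · right
    refine ⟨v, mem_insert_self _ _, ?_⟩
    rw [e1, e2 _ hpv]
  · intro w hw
    rcases mem_insert.1 hw with rfl | hw
    · rcases hp with hp | hp
      · exact Or.inl hp
      · exact Or.inr (mem_insert_of_mem hp)
    · rcases h.pcl w hw with h1 | h1
      · exact Or.inl h1
      · exact Or.inr (mem_insert_of_mem h1)
  · intro w hw
    rcases mem_insert.1 hw with rfl | hw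
    · rw [e1, e2 _ hpv]
    · rw [hsum w hw]
      exact (h.sum w hw).trans hM.le
  · right
    rcases h.fst with h1 | ⟨z, hz, h1, h2, h3, h4⟩
    · have hMb : M = b := by
        rcases h.fin with ⟨_, h5⟩ | ⟨y, hy, _⟩
        · exact h5
        · rw [h1] at hy
          exact absurd hy (notMem_empty y)
      refine ⟨v, mem_insert_self _ _, by rw [e1, hMb], ?_, ?_, ?_⟩
      · rcases hp with hp | hp
        · exact hp
        · rw [h1] at hp
          exact absurd hp (notMem_empty _)
      · intro w hw hwv
        rcases mem_insert.1 hw with hw | hw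
        · exact absurd hw hwv
        · rw [h1] at hw
          exact absurd hw (notMem_empty _)
      · rw [e2 _ hpv, hMb]
    · have hpz : Function.update f v M (par z) = f (par z) := e2 _ (e4 _ h2)
      refine ⟨z, mem_insert_of_mem hz, by rw [e2 z (e3 z hz), h1], h2, ?_, ?_⟩
      · intro w hw hwz
        rw [hpz]
        rcases mem_insert.1 hw with rfl | hw
        · rw [e1]
          exact h4
        · rw [e2 w (e3 w hw)]
          exact h3 w hw hwz
      · rw [hpz]
        exact h4.trans hM.le

/-- All vertices of a set with the parent `w` are placed. -/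
theorem Ch.leaves [DecidableEq V] {par : V → V} {X B : Finset V} {f : V → W} {b M : W}
    (h : Ch par X B f b M) (w : V) (hw : w ∈ X ∨ w ∈ B) (L : Finset V) (hX : ∀ v ∈ L, v ∉ X)
    (hB : ∀ v ∈ L, v ∉ B) (hL : ∀ v ∈ L, par v = w) :
    ∃ f' : V → W, Ch par X (B ∪ L) f' b (M + L.card • f w) ∧ (∀ v, v ∉ L → f' v = f v) ∧
      ∀ v ∈ L, M ≤ f' v := by
  induction L using Finset.induction_on with
  | empty =>
    refine ⟨f, ?_, fun v _ => rfl, fun v hv => absurd hv (notMem_empty v)⟩
    rw [union_empty, card_empty, zero_smul, add_zero]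
    exact h
  | insert a s ha ih =>
    obtain ⟨f', h1, h2, h3⟩ := ih (fun v hv => hX v (mem_insert_of_mem hv))
      (fun v hv => hB v (mem_insert_of_mem hv)) (fun v hv => hL v (mem_insert_of_mem hv))
    have haX := hX a (mem_insert_self _ _)
    have haB := hB a (mem_insert_self _ _)
    have hpa := hL a (mem_insert_self _ _)
    have hws : w ∉ insert a s := by
      intro hws
      rcases hw with hw | hw
      · exact hX w hws hw
      · exact hB w hws hw
    have h4 := h1.step (v := a) haX (by
      rw [mem_union, not_or]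
      exact ⟨haB, ha⟩) (by
      rw [hpa]
      rcases hw with hw | hw
      · exact Or.inl hw
      · exact Or.inr (mem_union_left _ hw))
    refine ⟨Function.update f' a (M + s.card • f w), ?_, ?_, ?_⟩
    · have e1 : B ∪ insert a s = insert a (B ∪ s) := by
        rw [union_insert]
      have e2 : M + (insert a s).card • f w = M + s.card • f w + f' (par a) := by
        rw [hpa, h2 w (fun hh => hws (mem_insert_of_mem hh)), card_insert_of_notMem ha, succ_nsmul,
          add_assoc]
      rw [e1, e2]
      exact h4
    · intro v hv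
      rw [mem_insert, not_or] at hv
      rw [Function.update_of_ne hv.1, h2 v hv.2]
    · intro v hv
      have hfw : 0 < f w := h.pos w hw
      rcases mem_insert.1 hv with rfl | hv
      · rw [Function.update_self]
        exact le_add_of_nonneg_right (nsmul_nonneg hfw.le _)
      · have hva : v ≠ a := fun e => ha (e ▸ hv)
        rw [Function.update_of_ne hva]
        exact h3 v hv

/-- A set that is closed under parents is placed. -/
theorem Ch.complete [DecidableEq V] {par : V → V} {X B : Finset V} {f : V → W} {b M : W}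
    (h : Ch par X B f b M) (dep : V → ℕ) (Y : Finset V) (hX : ∀ v ∈ Y, v ∉ X) (hB : ∀ v ∈ Y, v ∉ B)
    (hp : ∀ v ∈ Y, par v ∈ X ∨ par v ∈ B ∨ par v ∈ Y) (hd : ∀ v ∈ Y, dep (par v) < dep v) :
    ∃ f' : V → W, ∃ M' : W, Ch par X (B ∪ Y) f' b M' ∧ (∀ v, v ∉ Y → f' v = f v) ∧ M ≤ M' ∧
      (∀ v ∈ Y, M ≤ f' v) ∧ ∀ K : AddSubgroup W, M ∈ K → (∀ v ∈ Y, par v ∉ Y → f (par v) ∈ K) →
        (∀ v ∈ Y, f' v ∈ K) ∧ M' ∈ K := by
  induction Y using Finset.induction_on_max_value dep with
  | empty =>
    refine ⟨f, M, ?_, fun v _ => rfl, le_rfl, fun v hv => absurd hv (notMem_empty v), fun K hK _ =>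
      ⟨fun v hv => absurd hv (notMem_empty v), hK⟩⟩
    rw [union_empty]
    exact h
  | insert a s ha hmax ih =>
    have hps : ∀ v ∈ s, par v ∈ X ∨ par v ∈ B ∨ par v ∈ s := by
      intro v hv
      rcases hp v (mem_insert_of_mem hv) with h1 | h1 | h1
      · exact Or.inl h1
      · exact Or.inr (Or.inl h1)
      · rcases mem_insert.1 h1 with h2 | h2
        · have h3 := hd v (mem_insert_of_mem hv)
          have h4 := hmax v hv
          rw [h2] at h3
          omega
        · exact Or.inr (Or.inr h2)
    have hda := hd a (mem_insert_self _ _)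
    obtain ⟨f', M', h1, h2, h3, h4, h5⟩ := ih (fun v hv => hX v (mem_insert_of_mem hv))
      (fun v hv => hB v (mem_insert_of_mem hv)) hps (fun v hv => hd v (mem_insert_of_mem hv))
    have hpa : par a ≠ a := by
      intro e
      rw [e] at hda
      omega
    have h6 := h1.step (v := a) (hX a (mem_insert_self _ _)) (by
      rw [mem_union, not_or]
      exact ⟨hB a (mem_insert_self _ _), ha⟩) (by
      rcases hp a (mem_insert_self _ _) with h7 | h7 | h7
      · exact Or.inl h7
      · exact Or.inr (mem_union_left _ h7)
      · rcases mem_insert.1 h7 with h8 | h8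
        · exact absurd h8 hpa
        · exact Or.inr (mem_union_right _ h8))
    have hpos : 0 < f' (par a) := by
      apply h1.pos
      rcases hp a (mem_insert_self _ _) with h7 | h7 | h7
      · exact Or.inl h7
      · exact Or.inr (mem_union_left _ h7)
      · rcases mem_insert.1 h7 with h8 | h8
        · exact absurd h8 hpa
        · exact Or.inr (mem_union_right _ h8)
    refine ⟨Function.update f' a M', M' + f' (par a), ?_, ?_, ?_, ?_, ?_⟩
    · have e1 : B ∪ insert a s = insert a (B ∪ s) := by
        rw [union_insert]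
      rw [e1]
      exact h6
    · intro v hv
      rw [mem_insert, not_or] at hv
      rw [Function.update_of_ne hv.1, h2 v hv.2]
    · exact h3.trans (le_add_of_nonneg_right hpos.le)
    · intro v hv
      rcases mem_insert.1 hv with rfl | hv
      · rw [Function.update_self]
        exact h3
      · have hva : v ≠ a := fun e => ha (e ▸ hv)
        rw [Function.update_of_ne hva]
        exact h4 v hv
    · intro K hK hK2
      obtain ⟨h7, h8⟩ := h5 K hK (by
        intro v hv hpv
        apply hK2 v (mem_insert_of_mem hv)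
        intro h9
        rcases mem_insert.1 h9 with h10 | h10
        · have h11 := hd v (mem_insert_of_mem hv)
          have h12 := hmax v hv
          rw [h10] at h11
          omega
        · exact hpv h10)
      have h9 : f' (par a) ∈ K := by
        by_cases h10 : par a ∈ s
        · exact h7 _ h10
        · rw [h2 _ h10]
          apply hK2 a (mem_insert_self _ _)
          intro h11
          rcases mem_insert.1 h11 with h12 | h12
          · exact hpa h12
          · exact h10 h12
      refine ⟨?_, K.add_mem h8 h9⟩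
      intro v hv
      rcases mem_insert.1 hv with rfl | hv
      · rw [Function.update_self]
        exact h8
      · have hva : v ≠ a := fun e => ha (e ▸ hv)
        rw [Function.update_of_ne hva]
        exact h7 v hv

/-- Leaves that are placed backwards. -/
theorem tok [DecidableEq V] (par : V → V) (f : V → W) (m : W) (hm : 0 < m) (T : Finset V)
    (hp : ∀ t ∈ T, par t ∉ T) (hf : ∀ t ∈ T, m ≤ f (par t)) (E : W) :
    ∃ g : V → W, (∀ v, v ∉ T → g v = f v) ∧ (∀ t ∈ T, g t ≤ E - m) ∧
      (∀ s ∈ T, ∀ t ∈ T, g s = g t → s = t) ∧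
      (T = ∅ ∨ ∃ D ∈ T, (∃ t ∈ T, g t + g (par t) = E) ∧
        ∀ v ∈ T, v ≠ D → ∃ t ∈ T, g t + g (par t) = g v) ∧
      ∀ K : AddSubgroup W, E ∈ K → (∀ t ∈ T, f (par t) ∈ K) → ∀ t ∈ T, g t ∈ K := by
  induction T using Finset.induction_on generalizing E with
  | empty =>
    exact ⟨f, fun v _ => rfl, fun v hv => absurd hv (notMem_empty v),
      fun v hv => absurd hv (notMem_empty v), Or.inl rfl,
      fun K _ _ v hv => absurd hv (notMem_empty v)⟩
  | insert a s ha ih =>
    have hpa : par a ≠ a := fun e => hp a (mem_insert_self _ _) (by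
      rw [e]
      exact mem_insert_self _ _)
    have hpas : par a ∉ s := fun e => hp a (mem_insert_self _ _) (mem_insert_of_mem e)
    have hfa := hf a (mem_insert_self _ _)
    have hps : ∀ t ∈ s, par t ≠ a := fun t ht e => hp t (mem_insert_of_mem ht) (by
      rw [e]
      exact mem_insert_self _ _)
    obtain ⟨g, h1, h2, h3, h4, h5⟩ := ih
      (fun t ht h => hp t (mem_insert_of_mem ht) (mem_insert_of_mem h))
      (fun t ht => hf t (mem_insert_of_mem ht)) (E - f (par a))
    have hEE : E - f (par a) ≤ E - m := sub_le_sub_left hfa E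
    have hlt : E - f (par a) - m < E - f (par a) := sub_lt_self _ hm
    have e1 : ∀ t ∈ s, Function.update g a (E - f (par a)) t = g t := by
      intro t ht
      refine Function.update_of_ne ?_ _ _
      rintro rfl
      exact ha ht
    have e2 : ∀ t ∈ s, Function.update g a (E - f (par a)) (par t) = g (par t) := fun t ht =>
      Function.update_of_ne (hps t ht) _ _
    have e3 : Function.update g a (E - f (par a)) a = E - f (par a) := Function.update_self _ _ _
    have e4 : Function.update g a (E - f (par a)) a +
        Function.update g a (E - f (par a)) (par a) = E := by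
      rw [e3, Function.update_of_ne hpa, h1 _ hpas, sub_add_cancel]
    refine ⟨Function.update g a (E - f (par a)), ?_, ?_, ?_, ?_, ?_⟩
    · intro v hv
      rw [mem_insert, not_or] at hv
      rw [Function.update_of_ne hv.1, h1 v hv.2]
    · intro t ht
      rcases mem_insert.1 ht with rfl | ht
      · rw [e3]
        exact hEE
      · rw [e1 t ht]
        exact (h2 t ht).trans (hlt.le.trans hEE)
    · intro t ht t' ht' e
      rcases mem_insert.1 ht with hta | ht
      · rcases mem_insert.1 ht' with hta' | ht'
        · rw [hta, hta']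
        · rw [hta, e3, e1 t' ht'] at e
          exact absurd e (lt_of_le_of_lt (h2 t' ht') hlt).ne'
      · rcases mem_insert.1 ht' with hta' | ht'
        · rw [hta', e3, e1 t ht] at e
          exact absurd e (lt_of_le_of_lt (h2 t ht) hlt).ne
        · rw [e1 t ht, e1 t' ht'] at e
          exact h3 t ht t' ht' e
    · right
      rcases h4 with h6 | ⟨D, hD, ⟨t0, ht0, h6⟩, h7⟩
      · refine ⟨a, mem_insert_self _ _, ⟨a, mem_insert_self _ _, e4⟩, ?_⟩
        intro v hv hva
        rcases mem_insert.1 hv with hv | hv
        · exact absurd hv hva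
        · rw [h6] at hv
          exact absurd hv (notMem_empty _)
      · refine ⟨D, mem_insert_of_mem hD, ⟨a, mem_insert_self _ _, e4⟩, ?_⟩
        intro v hv hvD
        rcases mem_insert.1 hv with rfl | hv
        · refine ⟨t0, mem_insert_of_mem ht0, ?_⟩
          rw [e1 t0 ht0, e2 t0 ht0, e3]
          exact h6
        · obtain ⟨t, ht, h8⟩ := h7 v hv hvD
          exact ⟨t, mem_insert_of_mem ht, by rw [e1 t ht, e2 t ht, e1 v hv, h8]⟩
    · intro K hE hK t ht
      have h6 : E - f (par a) ∈ K := K.sub_mem hE (hK a (mem_insert_self _ _))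
      rcases mem_insert.1 ht with rfl | ht
      · rw [e3]
        exact h6
      · rw [e1 t ht]
        exact h5 K h6 (fun t ht => hK t (mem_insert_of_mem ht)) t ht

end Pool.Agent.H57.HV2
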