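import Pool.Agent.H57.HV2.Lobs

/-!
# The hypotheses in terms of paths and distances
-/

set_option autoImplicit false

namespace Pool.Agent.H57.HV2

open Finset Lob Pool.Agent.H57.HV

theorem dist_two {V : Type} {G : SimpleGraph V} {r : V} {par : V → V} {dep : V → ℕ}
    (h : Rt G r par dep) (hG : G.Connected) {v u : V} (hd : G.dist v u ≤ 2) :
    v = u ∨ par v = u ∨ par u = v ∨ par (par v) = u ∨ par (par u) = v ∨ par v = par u := by
  obtain ⟨W, hW⟩ := hG.exists_walk_length_eq_dist v u
  cases W with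
  | nil => exact Or.inl rfl
  | cons h1 W1 =>
    cases W1 with
    | nil =>
      rcases h.cs _ _ h1 with h2 | h2
      · exact Or.inr (Or.inr (Or.inl h2.2))
      · exact Or.inr (Or.inl h2.2)
    | cons h2 W2 =>
      cases W2 with
      | nil =>
        rcases h.cs _ _ h1 with h3 | h3
        · rcases h.cs _ _ h2 with h4 | h4
          · right; right; right; right; left
            rw [h4.2, h3.2]
          · left
            rw [← h3.2, h4.2]
        · rcases h.cs _ _ h2 with h4 | h4
          · right; right; right; right; right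
            rw [h4.2, h3.2]
          · right; right; right; left
            rw [h3.2, h4.2]
      | cons h3 W3 =>
        rw [SimpleGraph.Walk.length_cons, SimpleGraph.Walk.length_cons,
          SimpleGraph.Walk.length_cons] at hW
        omega

theorem hexB {V : Type} {G : SimpleGraph V} {r z : V} {par : V → V} {dep : V → ℕ}
    (h : Rt G r par dep) (hG : G.Connected) (hz : par z = r) (hzr : z ≠ r) (w : ℕ → V) (l : ℕ)
    (hw0 : w 0 = z) (hw : ∀ i < l, par (w (i + 1)) = w i)
    (hc : ∀ v ∈ Br par z, ∃ u, ((∃ i ≤ l, u = w i) ∨ u ∉ Br par z) ∧ G.dist v u ≤ 2) :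
    ∀ v ∈ Br par z, ∃ i ≤ l, v = w i ∨ par v = w i ∨ par (par v) = w i := by
  intro v hv
  have hvr : v ≠ r := by
    rintro rfl
    exact br_root h.root hzr hv
  have htop : par v = r → v = z := fun h1 => br_top h.root hzr hv h1
  obtain ⟨u, hu, hd⟩ := hc v hv
  have hcs := dist_two h hG hd
  rcases hu with ⟨i, hi, rfl⟩ | hu
  · by_cases hi0 : i = 0
    · subst hi0
      rw [hw0] at hcs
      rcases hcs with h1 | h1 | h1 | h1 | h1 | h1
      · exact ⟨0, hi, Or.inl (by rw [h1, hw0])⟩
      · exact ⟨0, hi, Or.inr (Or.inl (by rw [h1, hw0]))⟩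
      · exact absurd (by rw [← h1, hz]) hvr
      · exact ⟨0, hi, Or.inr (Or.inr (by rw [h1, hw0]))⟩
      · rw [hz, h.root] at h1
        exact absurd h1.symm hvr
      · rw [hz] at h1
        exact ⟨0, hi, Or.inl (by rw [htop h1, hw0])⟩
    · obtain ⟨k, rfl⟩ : ∃ k, i = k + 1 := ⟨i - 1, by omega⟩
      have hpk := hw k (by omega)
      rcases hcs with h1 | h1 | h1 | h1 | h1 | h1
      · exact ⟨k + 1, hi, Or.inl h1⟩
      · exact ⟨k + 1, hi, Or.inr (Or.inl h1)⟩
      · exact ⟨k, by omega, Or.inl (by rw [← h1, hpk])⟩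
      · exact ⟨k + 1, hi, Or.inr (Or.inr h1)⟩
      · rw [hpk] at h1
        by_cases hk0 : k = 0
        · rw [hk0, hw0, hz] at h1
          exact absurd h1.symm hvr
        · obtain ⟨m, rfl⟩ : ∃ m, k = m + 1 := ⟨k - 1, by omega⟩
          rw [hw m (by omega)] at h1
          exact ⟨m, by omega, Or.inl h1.symm⟩
      · rw [hpk] at h1
        exact ⟨k, by omega, Or.inr (Or.inl h1)⟩
  · by_cases hvz : v = z
    · exact ⟨0, by omega, Or.inl (by rw [hvz, hw0])⟩
    · have hp := br_par hv hvz
      by_cases hpz : par v = z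
      · exact ⟨0, by omega, Or.inr (Or.inl (by rw [hpz, hw0]))⟩
      · have hpp := br_par hp hpz
        exfalso
        rcases hcs with h1 | h1 | h1 | h1 | h1 | h1
        · exact hu (h1 ▸ hv)
        · exact hu (h1 ▸ hp)
        · exact hu (br_child (by rw [h1]; exact hv))
        · exact hu (h1 ▸ hpp)
        · exact hu (br_child (br_child (by rw [h1]; exact hv)))
        · exact hu (br_child (by rw [← h1]; exact hp))

theorem choose_path {V : Type} {x : V} {par : V → V} (x' : V) (hx' : par x' = x)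
    (hex : ∃ l : ℕ, ∃ w : ℕ → V, w 0 = x ∧ (∀ i < l, par (w (i + 1)) = w i) ∧
      ∀ v ∈ Br par x, ∃ i ≤ l, v = w i ∨ par v = w i ∨ par (par v) = w i) :
    ∃ l : ℕ, ∃ w : ℕ → V, w 0 = x ∧ (∀ i ≤ l, par (w (i + 1)) = w i) ∧
      (∀ v ∈ Br par x, ∃ i ≤ l, v = w i ∨ par v = w i ∨ par (par v) = w i) ∧
      ((∃ v, par v = w (l + 1)) ∨ ∀ v ∈ Br par x, v = x ∨ ∃ i ≤ l, par v = w i) := by
  classical
  obtain ⟨l, hl⟩ : ∃ l, l = Nat.find hex := ⟨_, rfl⟩
  have hmin : ∀ m < l, ¬ ∃ w : ℕ → V, w 0 = x ∧ (∀ i < m, par (w (i + 1)) = w i) ∧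
      ∀ v ∈ Br par x, ∃ i ≤ m, v = w i ∨ par v = w i ∨ par (par v) = w i :=
    fun m hm => Nat.find_min hex (hl ▸ hm)
  obtain ⟨w, hw0, hw, hlob⟩ : ∃ w : ℕ → V, w 0 = x ∧ (∀ i < l, par (w (i + 1)) = w i) ∧
      ∀ v ∈ Br par x, ∃ i ≤ l, v = w i ∨ par v = w i ∨ par (par v) = w i := by
    rw [hl]
    exact Nat.find_spec hex
  -- a vertex `u` with parent `w l`
  obtain ⟨u, hu, hu2⟩ : ∃ u, par u = w l ∧
      ((∃ v, par v = u) ∨ ∀ v ∈ Br par x, v = x ∨ ∃ i ≤ l, par v = w i) := by
    by_cases hl0 : l = 0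
    · by_cases h1 : ∃ v ∈ Br par x, v ≠ x ∧ par v ≠ x
      · obtain ⟨v, hv, hvx, hpx⟩ := h1
        obtain ⟨i, hi, h2⟩ := hlob v hv
        have hi0 : i = 0 := by omega
        rw [hi0, hw0] at h2
        rcases h2 with h2 | h2 | h2
        · exact absurd h2 hvx
        · exact absurd h2 hpx
        · exact ⟨par v, by rw [h2, hl0, hw0], Or.inl ⟨v, rfl⟩⟩
      · push Not at h1
        refine ⟨x', by rw [hx', hl0, hw0], Or.inr ?_⟩
        intro v hv
        by_cases hvx : v = x
        · exact Or.inl hvx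
        · exact Or.inr ⟨0, by omega, by rw [h1 v hv hvx, hw0]⟩
    · have h1 := hmin (l - 1) (by omega)
      push Not at h1
      obtain ⟨v, hv, h2⟩ := h1 w hw0 (fun i hi => hw i (by omega))
      obtain ⟨i, hi, h3⟩ := hlob v hv
      have hil : i = l := by
        by_contra hne
        have h4 := h2 i (by omega)
        rcases h3 with h3 | h3 | h3
        · exact h4.1 h3
        · exact h4.2.1 h3
        · exact h4.2.2 h3
      have h4 := h2 (l - 1) le_rfl
      have h5 := hw (l - 1) (by omega)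
      have h6 : l - 1 + 1 = l := by omega
      rw [h6] at h5
      rw [hil] at h3
      rcases h3 with h3 | h3 | h3
      · rw [← h3] at h5
        exact absurd h5 h4.2.1
      · rw [← h3] at h5
        exact absurd h5 h4.2.2
      · exact ⟨par v, h3, Or.inl ⟨v, rfl⟩⟩
  refine ⟨l, fun i => if i ≤ l then w i else u, ?_, ?_, ?_, ?_⟩
  · show (if 0 ≤ l then w 0 else u) = x
    rw [if_pos (by omega), hw0]
  · intro i hi
    show par (if i + 1 ≤ l then w (i + 1) else u) = if i ≤ l then w i else u
    rw [if_pos hi]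
    by_cases h1 : i + 1 ≤ l
    · rw [if_pos h1]
      exact hw i (by omega)
    · rw [if_neg h1, hu, (by omega : i = l)]
  · intro v hv
    obtain ⟨i, hi, h1⟩ := hlob v hv
    refine ⟨i, hi, ?_⟩
    show v = (if i ≤ l then w i else u) ∨ par v = (if i ≤ l then w i else u) ∨
      par (par v) = if i ≤ l then w i else u
    rw [if_pos hi]
    exact h1
  · rcases hu2 with ⟨v, hv⟩ | h1
    · left
      refine ⟨v, ?_⟩
      show par v = if l + 1 ≤ l then w (l + 1) else u
      rw [if_neg (by omega), hv]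
    · right
      intro v hv
      rcases h1 v hv with h2 | ⟨i, hi, h2⟩
      · exact Or.inl h2
      · refine Or.inr ⟨i, hi, ?_⟩
        show par v = if i ≤ l then w i else u
        rw [if_pos hi, h2]

theorem desc {V : Type} {G : SimpleGraph V} {r : V} {par : V → V} {dep : V → ℕ}
    (h : Rt G r par dep) {s c : V} (p : G.Walk s c) (hp : p.IsPath)
    (hs : s = r ∨ par s ∉ p.support) : ∀ i < p.length, par (p.getVert (i + 1)) = p.getVert i := by
  intro i
  induction i with
  | zero =>
    intro h0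
    have h1 := p.adj_getVert_succ h0
    rcases h.cs _ _ h1 with h2 | h2
    · exact h2.2
    · exfalso
      rw [SimpleGraph.Walk.getVert_zero] at h2
      rcases hs with hs | hs
      · exact h2.1 hs
      · apply hs
        rw [h2.2]
        exact p.getVert_mem_support _
  | succ i ih =>
    intro hi
    have h1 := p.adj_getVert_succ hi
    rcases h.cs _ _ h1 with h2 | h2
    · exact h2.2
    · exfalso
      have h3 := ih (by omega)
      rw [h2.2] at h3
      have h4 := hp.getVert_injOn (by rw [Set.mem_ofPred_eq]; omega)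
        (by rw [Set.mem_ofPred_eq]; omega) h3
      omega

theorem br_dist {V : Type} {G : SimpleGraph V} {r z : V} {par : V → V} {dep : V → ℕ}
    (h : Rt G r par dep) (hG : G.Connected) (hzr : z ≠ r) :
    ∀ v ∈ Br par z, G.dist z v + dep z ≤ dep v := by
  rintro v ⟨k, hk⟩
  induction k generalizing v with
  | zero =>
    have h1 : v = z := hk
    rw [h1, SimpleGraph.dist_self]
    omega
  | succ k ih =>
    have h1 := ih (par v) hk
    have hvr : v ≠ r := by
      rintro rfl
      exact br_root h.root hzr ⟨k + 1, hk⟩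
    have h2 := h.dep v hvr
    have h3 := hG.dist_triangle (u := z) (v := par v) (w := v)
    have h4 : G.dist (par v) v = 1 := SimpleGraph.dist_eq_one_iff_adj.2 (h.adj v hvr).symm
    omega

theorem walk_dep {V : Type} {G : SimpleGraph V} {r : V} {par : V → V} {dep : V → ℕ}
    (h : Rt G r par dep) {a b : V} (p : G.Walk a b) : dep b ≤ dep a + p.length := by
  induction p with
  | nil => exact le_rfl
  | cons h1 p ih =>
    rw [SimpleGraph.Walk.length_cons]
    rcases h.cs _ _ h1 with h2 | h2
    · have h3 := h.dep _ h2.1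
      rw [h2.2] at h3
      omega
    · have h3 := h.dep _ h2.1
      rw [h2.2] at h3
      omega

theorem br_lt {V : Type} {G : SimpleGraph V} {r z : V} {par : V → V} {dep : V → ℕ}
    (h : Rt G r par dep) (hG : G.Connected) (hz : par z = r) (hzr : z ≠ r) :
    ∀ v ∈ Br par z, G.dist z v < G.dist r v := by
  intro v hv
  have h1 := br_dist h hG hzr v hv
  obtain ⟨p, hp⟩ := hG.exists_walk_length_eq_dist r v
  have h2 := walk_dep h p
  have h3 := h.dep z hzr
  rw [hz] at h3
  omega

theorem child_of {V : Type} {G : SimpleGraph V} {r x z : V} {par : V → V} {dep : V → ℕ}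
    (h : Rt G r par dep) (hx : par x ≠ z) (hxz : G.Adj x z) : par z = x := by
  rcases h.cs _ _ hxz with h1 | h1
  · exact h1.2
  · exact absurd h1.2 hx

theorem par_of {V : Type} {G : SimpleGraph V} {r x : V} {par : V → V} {dep : V → ℕ}
    (h : Rt G r par dep) (hx : G.Adj r x) : par x = r ∧ x ≠ r := by
  rcases h.cs _ _ hx with h1 | h1
  · exact ⟨h1.2, h1.1⟩
  · exact absurd rfl h1.1

theorem lobs2 {V : Type} [Fintype V] (G : SimpleGraph V) (hG : G.IsTree) (r x y : V) {par : V → V}
    {dep : V → ℕ} (h : Rt G r par dep) (hx : par x = r) (hxr : x ≠ r) (hy : par y = r)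
    (hyr : y ≠ r) (hxy : x ≠ y) (x' y' : V) (hx' : par x' = x) (hy' : par y' = y) (w : ℕ → V)
    (l : ℕ) (hw0 : w 0 = x) (hw : ∀ i < l, par (w (i + 1)) = w i)
    (hc : ∀ v ∈ Br par x, ∃ u, ((∃ i ≤ l, u = w i) ∨ u ∉ Br par x) ∧ G.dist v u ≤ 2) :
    CL G r := by
  obtain ⟨l', w', h1, h2, h3, h4⟩ := choose_path x' hx'
    ⟨l, w, hw0, hw, hexB h hG.connected hx hxr w l hw0 hw hc⟩
  exact lobs G r x y y' h hx hxr hy hyr hxy hy' w' l' h1 h2 h3 h4

/-- Three branches at an edge or at a vertex. -/
theorem three2 {V : Type} [Fintype V] (G : SimpleGraph V) (hG : G.IsTree) (r s : V)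
    (hs : s = r ∨ G.Adj r s) (x y z : V) (hxy : x ≠ y) (hxz : x ≠ z) (hyz : y ≠ z)
    (hall : ∀ v, v = x ∨ v = y ∨ v = z → v ≠ r ∧ v ≠ s ∧ (G.Adj r v ∨ G.Adj s v) ∧
      ∃ a b, a ≠ b ∧ G.Adj v a ∧ G.Adj v b) : CL G r := by
  obtain ⟨par, dep, h⟩ := exists_rt G hG r
  have hsp : par s = r := by
    rcases hs with hs | hs
    · rw [hs, h.root]
    · exact (par_of h hs).1
  have hch : ∀ v, v = x ∨ v = y ∨ v = z → ∃ v', par v' = v := by
    intro v hv
    obtain ⟨h1, h2, h3, a, b, hab, ha, hb⟩ := hall v hv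
    by_cases h4 : par v = a
    · exact ⟨b, child_of h (by rw [h4]; exact hab) hb⟩
    · exact ⟨a, child_of h h4 ha⟩
  have hpar : ∀ v, v = x ∨ v = y ∨ v = z → par v = r ∨ (par v = s ∧ G.Adj s v) := by
    intro v hv
    obtain ⟨h1, h2, h3, _⟩ := hall v hv
    rcases h3 with h3 | h3
    · exact Or.inl (par_of h h3).1
    · rcases h.cs _ _ h3 with h4 | h4
      · exact Or.inr ⟨h4.2, h3⟩
      · rw [hsp] at h4
        exact absurd h4.2.symm h1
  obtain ⟨x', hx'⟩ := hch x (Or.inl rfl)
  obtain ⟨y', hy'⟩ := hch y (Or.inr (Or.inl rfl))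
  obtain ⟨z', hz'⟩ := hch z (Or.inr (Or.inr rfl))
  have hx := hall x (Or.inl rfl)
  have hy := hall y (Or.inr (Or.inl rfl))
  have hz := hall z (Or.inr (Or.inr rfl))
  by_cases hsl : s ∉ lv G r
  · exact three G r s h hsp hsl x y z hxy hxz hyz hx.1 hx.2.1 hy.1 hy.2.1 hz.1 hz.2.1
      ((hpar x (Or.inl rfl)).imp id (fun h1 => h1.1))
      ((hpar y (Or.inr (Or.inl rfl))).imp id (fun h1 => h1.1))
      ((hpar z (Or.inr (Or.inr rfl))).imp id (fun h1 => h1.1)) x' y' z' hx' hy' hz'
  · rw [not_not] at hsl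
    have hno : ∀ v, v = x ∨ v = y ∨ v = z → par v = r := by
      intro v hv
      rcases hpar v hv with h1 | h1
      · exact h1
      · exact absurd (hsl.2 v h1.2) (hall v hv).1
    exact three G r r h h.root (root_not_lv G r) x y z hxy hxz hyz hx.1 hx.1 hy.1 hy.1 hz.1 hz.1
      (Or.inl (hno x (Or.inl rfl))) (Or.inl (hno y (Or.inr (Or.inl rfl))))
      (Or.inl (hno z (Or.inr (Or.inr rfl)))) x' y' z' hx' hy' hz'

theorem br_disj {V : Type} {par : V → V} {r y z : V} (hr : par r = r) (hy : par y = r)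
    (hz : par z = r) (hyr : y ≠ r) (hzr : z ≠ r) {v : V} (h1 : v ∈ Br par y) (h2 : v ∈ Br par z) :
    y = z := by
  obtain ⟨k, hk⟩ := h1
  obtain ⟨l, hl⟩ := h2
  rcases lt_trichotomy k l with h1 | h1 | h1
  · obtain ⟨m, rfl⟩ : ∃ m, l = m + 1 + k := ⟨l - k - 1, by omega⟩
    rw [Function.iterate_add_apply, hk, Function.iterate_succ_apply, hy, Function.iterate_fixed hr] at hl
    exact absurd hl.symm hzr
  · rw [h1, hl] at hk
    exact hk.symm
  · obtain ⟨m, rfl⟩ : ∃ m, k = m + 1 + l := ⟨k - l - 1, by omega⟩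
    rw [Function.iterate_add_apply, hl, Function.iterate_succ_apply, hz, Function.iterate_fixed hr] at hk
    exact absurd hk.symm hyr

theorem exists_top {V : Type} {G : SimpleGraph V} {r : V} {par : V → V} {dep : V → ℕ}
    (h : Rt G r par dep) (n : ℕ) : ∀ v, dep v ≤ n → v ≠ r → ∃ z, par z = r ∧ z ≠ r ∧ v ∈ Br par z := by
  induction n with
  | zero =>
    intro v hv hvr
    have := h.dep v hvr
    omega
  | succ n ih =>
    intro v hv hvr
    by_cases h1 : par v = r
    · exact ⟨v, h1, hvr, br_self _ _⟩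
    · have h2 := h.dep v hvr
      obtain ⟨z, hz1, hz2, hz3⟩ := ih (par v) (by omega) h1
      exact ⟨z, hz1, hz2, br_child hz3⟩

theorem walk_br {V : Type} {G : SimpleGraph V} {r z : V} {par : V → V} {dep : V → ℕ}
    (h : Rt G r par dep) (hz : par z = r) {a b : V} (p : G.Walk a b)
    (hr : r ∉ p.support) (ha : a ∈ Br par z) : ∀ u ∈ p.support, u ∈ Br par z := by
  induction p with
  | nil =>
    intro u hu
    rw [SimpleGraph.Walk.support_nil, List.mem_singleton] at hu
    rw [hu]
    exact ha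
  | cons h1 p ih =>
    intro u hu
    rw [SimpleGraph.Walk.support_cons, List.mem_cons] at hu hr
    rw [not_or] at hr
    rcases hu with hu | hu
    · rw [hu]
      exact ha
    · refine ih hr.2 ?_ u hu
      rcases h.cs _ _ h1 with h2 | h2
      · exact br_child (by rw [h2.2]; exact ha)
      · rw [← h2.2]
        apply br_par ha
        rintro rfl
        rw [hz] at h2
        exact hr.2 (h2.2 ▸ p.start_mem_support)

theorem arm {V : Type} [Fintype V] (G : SimpleGraph V) (hG : G.IsTree) (r x y : V) {par : V → V}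
    {dep : V → ℕ} (h : Rt G r par dep) (hx : par x = r) (hxr : x ≠ r) (hy : par y = r)
    (hyr : y ≠ r) (hxy : x ≠ y) (x' y' : V) (hx' : par x' = x) (hy' : par y' = y) {c d : V}
    (q : G.Walk r c) (q' : G.Walk r d) (hq : q.IsPath) (hq' : q'.IsPath) (h1 : 1 ≤ q.length)
    (h2 : q.getVert 1 = x) (h3 : 1 ≤ q'.length → q'.getVert 1 ≠ x)
    (hd : ∀ v ∈ Br par x, ∃ u, (u ∈ q.support ∨ u ∈ q'.support) ∧ G.dist v u ≤ 2) : CL G r := by
  have hde := desc h q hq (Or.inl rfl)
  have hde' := desc h q' hq' (Or.inl rfl)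
  have hrBr : r ∉ Br par x := br_root h.root hxr
  refine lobs2 G hG r x y h hx hxr hy hyr hxy x' y' hx' hy' (fun i => q.getVert (i + 1))
    (q.length - 1) h2 (fun i hi => hde (i + 1) (by omega)) ?_
  intro v hv
  obtain ⟨u, hu, h4⟩ := hd v hv
  refine ⟨u, ?_, h4⟩
  rcases hu with hu | hu
  · obtain ⟨n, hn, hn'⟩ := SimpleGraph.Walk.mem_support_iff_exists_getVert.1 hu
    by_cases hn0 : n = 0
    · right
      rw [hn0, SimpleGraph.Walk.getVert_zero] at hn
      rw [← hn]
      exact hrBr
    · left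
      refine ⟨n - 1, by omega, ?_⟩
      show u = q.getVert (n - 1 + 1)
      rw [← hn, (by omega : n - 1 + 1 = n)]
  · right
    obtain ⟨n, hn, hn'⟩ := SimpleGraph.Walk.mem_support_iff_exists_getVert.1 hu
    by_cases hn0 : n = 0
    · rw [hn0, SimpleGraph.Walk.getVert_zero] at hn
      rw [← hn]
      exact hrBr
    · have hin : ∀ m, m + 1 ≤ q'.length → q'.getVert (m + 1) ∈ Br par (q'.getVert 1) := by
        intro m
        induction m with
        | zero => exact fun _ => br_self _ _
        | succ m ih =>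
          intro hm
          apply br_child
          rw [hde' (m + 1) (by omega)]
          exact ih (by omega)
      have h5 := hin (n - 1) (by omega)
      rw [(by omega : n - 1 + 1 = n), hn] at h5
      intro h6
      have h7 := hde' 0 (by omega)
      rw [SimpleGraph.Walk.getVert_zero, zero_add] at h7
      have h8 : q'.getVert 1 ≠ r := by
        intro e
        have h9 := hq'.getVert_injOn (x₁ := 1) (x₂ := 0) (by rw [Set.mem_ofPred_eq]; omega)
          (by rw [Set.mem_ofPred_eq]; omega) (by rw [e, SimpleGraph.Walk.getVert_zero])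
        omega
      exact h3 (by omega) (br_disj h.root h7 hx h8 hxr h5 h6)

/-- The version with a path through `r`. -/
theorem through {V : Type} [Fintype V] (G : SimpleGraph V) (hG : G.IsTree) (r x y x' y' : V)
    {par : V → V} {dep : V → ℕ} (h : Rt G r par dep) (hx1 : par x = r) (hxr : x ≠ r)
    (hy1 : par y = r) (hyr : y ≠ r) (hxy : x ≠ y) (hx2 : par x' = x) (hy2 : par y' = y) (a b : V)
    (p : G.Walk a b) (hp : p.IsPath) (hr : r ∈ p.support)
    (hd : ∀ v ∈ Br par x, ∃ u ∈ p.support, G.dist v u ≤ 2) : CL G r := by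
  classical
  obtain ⟨q1, hq1⟩ : ∃ q1, q1 = (p.takeUntil r hr).reverse := ⟨_, rfl⟩
  obtain ⟨q2, hq2⟩ : ∃ q2, q2 = p.dropUntil r hr := ⟨_, rfl⟩
  have hp1 : q1.IsPath := by
    rw [hq1]
    exact (hp.takeUntil hr).reverse
  have hp2 : q2.IsPath := by
    rw [hq2]
    exact hp.dropUntil hr
  have hspec := p.take_spec hr
  have hsup : ∀ u ∈ p.support, u ∈ q1.support ∨ u ∈ q2.support := by
    intro u hu
    rw [← hspec, SimpleGraph.Walk.mem_support_append_iff] at hu
    rw [hq1, hq2, SimpleGraph.Walk.support_reverse, List.mem_reverse]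
    exact hu
  -- the two parts have no common vertex but `r`
  have hdis : ∀ u, u ∈ q1.support → u ∈ q2.support → u = r := by
    intro u hu1 hu2
    have hnd := hp.support_nodup
    rw [← hspec, SimpleGraph.Walk.support_append, List.nodup_append] at hnd
    rw [hq1, SimpleGraph.Walk.support_reverse, List.mem_reverse] at hu1
    rw [hq2] at hu2
    rw [SimpleGraph.Walk.mem_support_iff] at hu2
    rcases hu2 with hu2 | hu2
    · exact hu2
    · exact absurd rfl (hnd.2.2 u hu1 u hu2)
  have hd1 : ∀ v ∈ Br par x, ∃ u, (u ∈ q1.support ∨ u ∈ q2.support) ∧ G.dist v u ≤ 2 := by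
    intro v hv
    obtain ⟨u, hu, h1⟩ := hd v hv
    exact ⟨u, hsup u hu, h1⟩
  by_cases hc1 : 1 ≤ q1.length ∧ q1.getVert 1 = x
  · refine arm G hG r x y h hx1 hxr hy1 hyr hxy x' y' hx2 hy2 q1 q2 hp1 hp2 hc1.1 hc1.2 ?_ hd1
    intro _ h2
    apply hxr
    apply hdis
    · rw [← hc1.2]
      exact q1.getVert_mem_support 1
    · rw [← h2]
      exact q2.getVert_mem_support 1
  · by_cases hc2 : 1 ≤ q2.length ∧ q2.getVert 1 = x
    · refine arm G hG r x y h hx1 hxr hy1 hyr hxy x' y' hx2 hy2 q2 q1 hp2 hp1 hc2.1 hc2.2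
        (fun h1 h2 => hc1 ⟨h1, h2⟩) ?_
      intro v hv
      obtain ⟨u, hu, h1⟩ := hd1 v hv
      exact ⟨u, hu.symm, h1⟩
    · refine lobs2 G hG r x y h hx1 hxr hy1 hyr hxy x' y' hx2 hy2 (fun _ => x) 0 rfl
        (fun i hi => absurd hi (by omega)) ?_
      intro v hv
      obtain ⟨u, hu, h1⟩ := hd1 v hv
      refine ⟨u, Or.inr ?_, h1⟩
      have gen : ∀ {c : V} (q : G.Walk r c), q.IsPath → ¬ (1 ≤ q.length ∧ q.getVert 1 = x) →
          u ∈ q.support → u ∉ Br par x := by
        intro c q hq hc hu h6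
        obtain ⟨n, hn, hn'⟩ := SimpleGraph.Walk.mem_support_iff_exists_getVert.1 hu
        have hde := desc h q hq (Or.inl rfl)
        by_cases hn0 : n = 0
        · rw [hn0, SimpleGraph.Walk.getVert_zero] at hn
          rw [← hn] at h6
          exact br_root h.root hxr h6
        · have hin : ∀ m, m + 1 ≤ q.length → q.getVert (m + 1) ∈ Br par (q.getVert 1) := by
            intro m
            induction m with
            | zero => exact fun _ => br_self _ _
            | succ m ih =>
              intro hm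
              apply br_child
              rw [hde (m + 1) (by omega)]
              exact ih (by omega)
          have h5 := hin (n - 1) (by omega)
          rw [(by omega : n - 1 + 1 = n), hn] at h5
          have h7 := hde 0 (by omega)
          rw [SimpleGraph.Walk.getVert_zero, zero_add] at h7
          have h8 : q.getVert 1 ≠ r := by
            intro e
            have h9 := hq.getVert_injOn (x₁ := 1) (x₂ := 0) (by rw [Set.mem_ofPred_eq]; omega)
              (by rw [Set.mem_ofPred_eq]; omega) (by rw [e, SimpleGraph.Walk.getVert_zero])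
            omega
          exact hc ⟨by omega, br_disj h.root h7 hx1 h8 hxr h5 h6⟩
      rcases hu with hu | hu
      · exact gen q1 hp1 hc1 hu
      · exact gen q2 hp2 hc2 hu

theorem lobster {V : Type} [Fintype V] (G : SimpleGraph V) (hG : G.IsTree) (r x y x' y' : V)
    (hx : G.Adj r x) (hy : G.Adj r y) (hxy : x ≠ y) (hx' : G.Adj x x') (hxr' : x' ≠ r)
    (hy' : G.Adj y y') (hyr' : y' ≠ r) (a b : V) (p : G.Walk a b) (hp : p.IsPath)
    (hd : (∀ v, ∃ u ∈ p.support, G.dist v u ≤ 2) ∨ (r ∈ p.support ∧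
      ∀ v, G.dist x v < G.dist r v → ∃ u ∈ p.support, G.dist v u ≤ 2)) : CL G r := by
  obtain ⟨par, dep, h⟩ := exists_rt G hG r
  obtain ⟨hx1, hxr⟩ := par_of h hx
  obtain ⟨hy1, hyr⟩ := par_of h hy
  have hx2 : par x' = x := child_of h (by rw [hx1]; exact hxr'.symm) hx'
  have hy2 : par y' = y := child_of h (by rw [hy1]; exact hyr'.symm) hy'
  rcases hd with hd | ⟨hr, hd⟩
  · -- the path contains `r`
    have hr : r ∈ p.support := by
      by_contra hr
      have har : a ≠ r := by
        rintro rfl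
        exact hr p.start_mem_support
      obtain ⟨z, hz1, hzr, hz2⟩ := exists_top h (dep a) a le_rfl har
      have hsup := walk_br h hz1 p hr hz2
      have key : ∀ t t', par t = r → t ≠ r → t ≠ z → par t' = t → False := by
        intro t t' ht1 htr htz ht2
        obtain ⟨u, hu, h1⟩ := hd t'
        have hu2 := hsup u hu
        have hur : u ≠ r := by
          rintro rfl
          exact hr hu
        have ht' : t' ∈ Br par t := br_child (by rw [ht2]; exact br_self _ _)
        have hno : u ∉ Br par t := fun h2 => htz (br_disj h.root ht1 hz1 htr hzr h2 hu2)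
        rcases dist_two h hG.connected h1 with h2 | h2 | h2 | h2 | h2 | h2
        · exact hno (h2 ▸ ht')
        · exact hno (by rw [← h2, ht2]; exact br_self _ _)
        · exact hno (br_child (by rw [h2]; exact ht'))
        · rw [ht2, ht1] at h2
          exact hur h2.symm
        · exact hno (br_child (br_child (by rw [h2]; exact ht')))
        · exact hno (br_child (by rw [← h2, ht2]; exact br_self _ _))
      by_cases hxz : x = z
      · exact key y y' hy1 hyr (fun e => hxy (hxz.trans e.symm)) hy2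
      · exact key x x' hx1 hxr hxz hx2
    exact through G hG r x y x' y' h hx1 hxr hy1 hyr hxy hx2 hy2 a b p hp hr (fun v _ => hd v)
  · exact through G hG r x y x' y' h hx1 hxr hy1 hyr hxy hx2 hy2 a b p hp hr
      (fun v hv => hd v (br_lt h hG.connected hx1 hxr v hv))

end Pool.Agent.H57.HV2
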