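import Pool.Agent.H57.HV2.Rt

/-!
# From vector labels to harmonious labellings
-/

set_option autoImplicit false

namespace Pool.Agent.H57.HV2

open Finset Lob Pool.Agent.H57.HV

/-- A closed labelling of the part outside the leaves at `r`: all labels but the one of `D` are different and sums of edges. -/
def CL {V : Type} (G : SimpleGraph V) (r : V) : Prop :=
  ∃ (f : V → ℤ) (D : V), D ∉ lv G r ∧ f r = 0 ∧
    (∀ x, x ∉ lv G r → x ≠ D → ∀ y, y ∉ lv G r → y ≠ D → f x = f y → x = y) ∧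
    ∀ v, v ∉ lv G r → v ≠ D → ∃ x y, x ∉ lv G r ∧ y ∉ lv G r ∧ G.Adj x y ∧ f x + f y = f v

/-- A functional that does not vanish on given vectors. -/
theorem ev {V : Type} [Fintype V] (S : Finset (V → ℤ)) (h0 : ∀ w ∈ S, w ≠ 0) :
    ∃ ψ : (V → ℤ) →+ ℤ, ∀ w ∈ S, ψ w ≠ 0 := by
  classical
  obtain ⟨e⟩ : Nonempty (V ≃ Fin (Fintype.card V)) := ⟨Fintype.equivFin V⟩
  obtain ⟨P, hP⟩ : ∃ P : (V → ℤ) → Polynomial ℤ, ∀ w, P w =
      ∑ v, Polynomial.C (w v) * Polynomial.X ^ (e v : ℕ) := ⟨_, fun _ => rfl⟩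
  have hcoef : ∀ w v, (P w).coeff (e v : ℕ) = w v := by
    intro w v
    rw [hP, Polynomial.finsetSum_coeff, Finset.sum_eq_single v]
    · rw [Polynomial.coeff_C_mul, Polynomial.coeff_X_pow_self, mul_one]
    · intro u _ hu
      rw [Polynomial.coeff_C_mul, Polynomial.coeff_X_pow, if_neg, mul_zero]
      intro h
      exact hu (e.injective (Fin.ext h.symm))
    · intro h
      exact absurd (mem_univ v) h
  have hne : ∏ w ∈ S, P w ≠ 0 := by
    rw [Finset.prod_ne_zero_iff]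
    intro w hw h
    apply h0 w hw
    funext v
    rw [← hcoef w v, h, Polynomial.coeff_zero]
    rfl
  obtain ⟨t, ht⟩ : ∃ t : ℤ, (∏ w ∈ S, P w).eval t ≠ 0 := by
    by_contra hcon
    push Not at hcon
    apply hne
    apply Polynomial.funext
    intro t
    rw [hcon t, Polynomial.eval_zero]
  refine ⟨⟨⟨fun w => ∑ v, w v * t ^ (e v : ℕ), ?_⟩, ?_⟩, ?_⟩
  · simp
  · intro w w'
    rw [← Finset.sum_add_distrib]
    refine Finset.sum_congr rfl fun v _ => ?_
    rw [Pi.add_apply]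
    ring
  · intro w hw h
    apply ht
    rw [Polynomial.eval_prod]
    refine Finset.prod_eq_zero hw ?_
    rw [hP, Polynomial.eval_finsetSum]
    refine Eq.trans ?_ h
    show _ = ∑ v, w v * t ^ (e v : ℕ)
    refine Finset.sum_congr rfl fun v _ => ?_
    rw [Polynomial.eval_mul, Polynomial.eval_C, Polynomial.eval_pow, Polynomial.eval_X]

/-- Vector labels modulo `R` suffice. -/
theorem cl_of_mod {V : Type} [Fintype V] (G : SimpleGraph V) (r : V) (f : V → (V → ℤ)) (R : V → ℤ)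
    (D j : V) (hD : D ∉ lv G r) (h0 : f r = 0)
    (hinj : ∀ x, x ∉ lv G r → x ≠ D → ∀ y, y ∉ lv G r → y ≠ D →
      R j • (f x - f y) = ((f x - f y) j) • R → x = y)
    (hcov : ∀ v, v ∉ lv G r → v ≠ D → ∃ x y, x ∉ lv G r ∧ y ∉ lv G r ∧ G.Adj x y ∧
      ∃ k : ℤ, f x + f y = f v + k • R) : CL G r := by
  classical
  obtain ⟨S, hS⟩ : ∃ S : Finset (V → ℤ), S = ((univ ×ˢ univ).image
      (fun p : V × V => R j • (f p.1 - f p.2) - ((f p.1 - f p.2) j) • R)).filter (fun w => w ≠ 0) :=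
    ⟨_, rfl⟩
  obtain ⟨ψ, hψ⟩ := ev S (by
    intro w hw
    rw [hS, mem_filter] at hw
    exact hw.2)
  obtain ⟨φ, hφ⟩ : ∃ φ : (V → ℤ) → ℤ, ∀ w, φ w = R j * ψ w - w j * ψ R := ⟨_, fun _ => rfl⟩
  have hφa : ∀ w w', φ (w + w') = φ w + φ w' := by
    intro w w'
    rw [hφ, hφ, hφ, map_add, Pi.add_apply]
    ring
  have hφ2 : ∀ w, φ w = ψ (R j • w - (w j) • R) := by
    intro w
    rw [hφ, map_sub, map_zsmul, map_zsmul, smul_eq_mul, smul_eq_mul]
  have hφR : ∀ k : ℤ, φ (k • R) = 0 := by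
    intro k
    rw [hφ, map_zsmul, Pi.smul_apply, smul_eq_mul, smul_eq_mul]
    ring
  refine ⟨fun v => φ (f v), D, hD, ?_, ?_, ?_⟩
  · show φ (f r) = 0
    rw [h0, hφ, map_zero, Pi.zero_apply]
    ring
  · intro x hx hxD y hy hyD hxy
    have h1 : φ (f x - f y) = 0 := by
      have h2 := hφa (f x - f y) (f y)
      rw [sub_add_cancel] at h2
      have hxy' : φ (f x) = φ (f y) := hxy
      linarith
    apply hinj x hx hxD y hy hyD
    by_contra hne
    rw [hφ2] at h1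
    refine hψ _ ?_ h1
    rw [hS, mem_filter]
    exact ⟨mem_image.2 ⟨(x, y), mem_product.2 ⟨mem_univ _, mem_univ _⟩, rfl⟩, sub_ne_zero.2 hne⟩
  · intro v hv hvD
    obtain ⟨x, y, hx, hy, hxy, k, hk⟩ := hcov v hv hvD
    refine ⟨x, y, hx, hy, hxy, ?_⟩
    show φ (f x) + φ (f y) = φ (f v)
    rw [← hφa, hk, hφa, hφR, add_zero]

theorem closedD {V : Type} [Fintype V] (G : SimpleGraph V) (hG : G.IsTree) (r : V)
    (f : V → ℤ) (D : V) (A : ℤ) (h0 : f r = 0) (hr : ¬ r ∈ lv G r) (hD : D ∉ lv G r)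
    (hq : 1 ≤ G.edgeSet.ncard)
    (hinj : ∀ x, x ∉ lv G r → x ≠ D → ∀ y, y ∉ lv G r → y ≠ D → f x = f y → x = y)
    (hcov : ∀ v, v ∉ lv G r → v ≠ D → ∃ x y, x ∉ lv G r ∧ y ∉ lv G r ∧ G.Adj x y ∧ f x + f y = f v)
    (hA : ∀ v, v ∉ lv G r → A ≤ f v ∧ f v < A + G.edgeSet.ncard) : Harmonious G := by
  classical
  obtain ⟨q, hqe⟩ : ∃ q, q = G.edgeSet.ncard := ⟨_, rfl⟩
  have hV := ncard_edge G hG
  unfold Harmonious
  rw [← hqe] at hq hA hV ⊢
  have : NeZero q := ⟨by omega⟩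
  obtain ⟨S, hS⟩ : ∃ S : Finset V, ∀ v, v ∈ S ↔ v ∉ lv G r ∧ v ≠ D :=
    ⟨univ.filter fun v => v ∉ lv G r ∧ v ≠ D, fun v => by
      rw [mem_filter]; exact ⟨fun h => h.2, fun h => ⟨mem_univ _, h⟩⟩⟩
  obtain ⟨L, hL⟩ : ∃ L : Finset V, ∀ v, v ∈ L ↔ v ∈ lv G r :=
    ⟨univ.filter fun v => v ∈ lv G r, fun v => by rw [mem_filter]; exact ⟨fun h => h.2, fun h => ⟨mem_univ _, h⟩⟩⟩
  have hSL : S.card + 1 + L.card = Fintype.card V := by
    have hDS : D ∉ S := fun h => ((hS D).1 h).2 rfl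
    have h1 : insert D S = Lᶜ := by
      ext v
      rw [mem_compl, mem_insert, hS, hL]
      constructor
      · rintro (h | h)
        · rw [h]
          exact hD
        · exact h.1
      · intro h
        by_cases hvD : v = D
        · exact Or.inl hvD
        · exact Or.inr ⟨h, hvD⟩
    rw [← card_insert_of_notMem hDS, h1, card_compl]
    have := L.card_le_univ
    omega
  -- the residues of the labels in `S`
  have hmod : ∀ x ∈ S, ∀ y ∈ S, ((f x : ℤ) : ZMod q) = ((f y : ℤ) : ZMod q) → x = y := by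
    intro x hx y hy hxy
    rw [hS] at hx hy
    apply hinj x hx.1 hx.2 y hy.1 hy.2
    rw [ZMod.intCast_eq_intCast_iff_dvd_sub] at hxy
    obtain ⟨c, hc⟩ := hxy
    have h1 := hA x hx.1
    have h2 := hA y hy.1
    have h3 : c = 0 := by
      by_contra hne
      rcases lt_or_gt_of_ne hne with h4 | h4
      · have h5 : (q : ℤ) * c ≤ (q : ℤ) * (-1) := mul_le_mul_of_nonneg_left (by omega) (by omega)
        omega
      · have h5 : (q : ℤ) * 1 ≤ (q : ℤ) * c := mul_le_mul_of_nonneg_left (by omega) (by omega)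
        omega
    rw [h3, mul_zero] at hc
    omega
  obtain ⟨T0, hT0⟩ : ∃ T0 : Finset (ZMod q), T0 = S.image (fun v => ((f v : ℤ) : ZMod q)) := ⟨_, rfl⟩
  have hT0c : T0.card = S.card := by
    rw [hT0]
    exact card_image_of_injOn fun x hx y hy h => hmod x hx y hy h
  have hT1c : T0ᶜ.card = L.card := by
    rw [card_compl, hT0c, ZMod.card]
    omega
  obtain ⟨g, hg⟩ := exists_img L T0ᶜ hT1c.symm
  obtain ⟨F, hF⟩ : ∃ F : V → ZMod q, ∀ v, F v = if v ∈ L then g v else ((f v : ℤ) : ZMod q) :=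
    ⟨_, fun _ => rfl⟩
  have hFS : ∀ v, v ∉ lv G r → F v = ((f v : ℤ) : ZMod q) := by
    intro v hv
    rw [hF, if_neg (fun h => hv ((hL v).1 h))]
  have hFr : F r = 0 := by
    rw [hFS r hr, h0, Int.cast_zero]
  -- every residue is a label and the sum of an edge
  have hall : ∀ y : ZMod q, (∃ v, F v = y) ∧ ∃ a b, G.Adj a b ∧ F a + F b = y := by
    intro y
    by_cases hy : y ∈ T0ᶜ
    · rw [← hg, mem_image] at hy
      obtain ⟨v, hv, hvy⟩ := hy
      have h1 : F v = y := by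
        rw [hF, if_pos hv, hvy]
      refine ⟨⟨v, h1⟩, r, v, ((hL v).1 hv).1, ?_⟩
      rw [hFr, zero_add, h1]
    · have h1 : y ∈ T0 := by
        rwa [mem_compl, not_not] at hy
      rw [hT0, mem_image] at h1
      obtain ⟨v, hv, hvy⟩ := h1
      have hvl := ((hS v).1 hv).1
      have hvD := ((hS v).1 hv).2
      refine ⟨⟨v, by rw [hFS v hvl, hvy]⟩, ?_⟩
      obtain ⟨a, b, ha, hb, hab, hs⟩ := hcov v hvl hvD
      refine ⟨a, b, hab, ?_⟩
      rw [hFS a ha, hFS b hb, ← Int.cast_add, hs, hvy]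
  refine ⟨hq, F, fun h => absurd hG h, fun _ => ?_, ?_⟩
  · refine two_fiber F (fun y => (hall y).1) ?_
    rw [ZMod.card]
    exact hV.symm
  · -- the sums are distinct
    obtain ⟨φ, hφ⟩ : ∃ φ : Sym2 V → ZMod q, ∀ a b, φ s(a, b) = F a + F b :=
      ⟨Sym2.lift ⟨fun a b => F a + F b, fun a b => add_comm _ _⟩, fun a b => rfl⟩
    have hsurj : Function.Surjective (fun e : G.edgeFinset => φ e.1) := by
      intro y
      obtain ⟨a, b, hab, hs⟩ := (hall y).2
      refine ⟨⟨s(a, b), by rw [SimpleGraph.mem_edgeFinset]; exact hab⟩, ?_⟩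
      show φ s(a, b) = y
      rw [hφ, hs]
    have hcard : Fintype.card G.edgeFinset = Fintype.card (ZMod q) := by
      rw [Fintype.card_coe, ZMod.card]
      have := hG.card_edgeFinset
      omega
    have hinj2 : Function.Injective (fun e : G.edgeFinset => φ e.1) :=
      ((Fintype.bijective_iff_surjective_and_card _).2 ⟨hsurj, hcard⟩).1
    intro x y x' y' hxy hxy' hs
    have h1 : φ s(x, y) = φ s(x', y') := by
      rw [hφ, hφ]
      exact hs
    have h2 := @hinj2 ⟨s(x, y), by rw [SimpleGraph.mem_edgeFinset]; exact hxy⟩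
      ⟨s(x', y'), by rw [SimpleGraph.mem_edgeFinset]; exact hxy'⟩ h1
    exact congrArg Subtype.val h2

/-- The tree `T` with `N` further leaves adjacent to `r`. -/
def addLeaves {V : Type} (T : SimpleGraph V) (r : V) (N : ℕ) : SimpleGraph (V ⊕ Fin N) where
  Adj a b := (∃ x y, a = Sum.inl x ∧ b = Sum.inl y ∧ T.Adj x y) ∨
    (a = Sum.inl r ∧ ∃ i, b = Sum.inr i) ∨ (b = Sum.inl r ∧ ∃ i, a = Sum.inr i)
  symm := ⟨by
    rintro a b (⟨x, y, h1, h2, h3⟩ | h | h)
    · exact Or.inl ⟨y, x, h2, h1, h3.symm⟩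
    · exact Or.inr (Or.inr h)
    · exact Or.inr (Or.inl h)⟩
  loopless := ⟨by
    rintro a (⟨x, y, h1, h2, h3⟩ | ⟨h1, i, h2⟩ | ⟨h1, i, h2⟩)
    · rw [h1] at h2
      exact h3.ne (Sum.inl_injective h2)
    · rw [h1] at h2
      cases h2
    · rw [h1] at h2
      cases h2⟩

theorem al_inl {V : Type} (T : SimpleGraph V) (r : V) (N : ℕ) (x y : V) :
    (addLeaves T r N).Adj (Sum.inl x) (Sum.inl y) ↔ T.Adj x y := by
  constructor
  · rintro (⟨x', y', h1, h2, h3⟩ | ⟨_, i, h2⟩ | ⟨_, i, h2⟩)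
    · rw [Sum.inl_injective h1, Sum.inl_injective h2]
      exact h3
    · cases h2
    · cases h2
  · intro h
    exact Or.inl ⟨x, y, rfl, rfl, h⟩

theorem al_inr {V : Type} (T : SimpleGraph V) (r : V) (N : ℕ) (i : Fin N) (a : V ⊕ Fin N) :
    (addLeaves T r N).Adj (Sum.inr i) a ↔ a = Sum.inl r := by
  constructor
  · rintro (⟨x', y', h1, h2, h3⟩ | ⟨h1, _⟩ | ⟨h1, _⟩)
    · cases h1
    · cases h1
    · exact h1
  · intro h
    exact Or.inr (Or.inr ⟨h, i, rfl⟩)

theorem al_tree {V : Type} [Fintype V] (T : SimpleGraph V) (hT : T.IsTree) (r : V) (N : ℕ) :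
    (addLeaves T r N).IsTree := by
  classical
  have hreach : ∀ x, (addLeaves T r N).Reachable (Sum.inl r) (Sum.inl x) := by
    intro x
    obtain ⟨p⟩ := hT.connected r x
    exact ⟨p.map ⟨Sum.inl, fun {a b} h => (al_inl T r N a b).2 h⟩⟩
  have hreach2 : ∀ a, (addLeaves T r N).Reachable (Sum.inl r) a := by
    rintro (x | i)
    · exact hreach x
    · exact ((al_inr T r N i (Sum.inl r)).2 rfl).symm.reachable
  have hconn : (addLeaves T r N).Connected := by
    have : Nonempty (V ⊕ Fin N) := ⟨Sum.inl r⟩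
    exact ⟨fun a b => (hreach2 a).symm.trans (hreach2 b)⟩
  rw [SimpleGraph.isTree_iff_connected_and_card]
  refine ⟨hconn, ?_⟩
  have h1 := hconn.card_vert_le_card_edgeSet_add_one
  have h2 : (addLeaves T r N).edgeSet ⊆ (Sym2.map Sum.inl '' T.edgeSet) ∪
      Set.range (fun i : Fin N => s(Sum.inl r, Sum.inr i)) := by
    intro e he
    induction e using Sym2.ind with
    | _ a b =>
      rw [SimpleGraph.mem_edgeSet] at he
      rcases he with ⟨x, y, h1, h2, h3⟩ | ⟨h1, i, h2⟩ | ⟨h1, i, h2⟩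
      · left
        refine ⟨s(x, y), h3, ?_⟩
        rw [Sym2.map_mk, h1, h2]
      · right
        exact ⟨i, by rw [h1, h2]⟩
      · right
        exact ⟨i, by rw [h1, h2, Sym2.eq_swap]⟩
  have h3 := Set.ncard_le_ncard h2 (Set.toFinite _)
  have h4 := Set.ncard_union_le (Sym2.map Sum.inl '' T.edgeSet)
    (Set.range (fun i : Fin N => s((Sum.inl r : V ⊕ Fin N), Sum.inr i)))
  have h5 := Set.ncard_image_le (f := Sym2.map (Sum.inl : V → V ⊕ Fin N)) (Set.toFinite T.edgeSet)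
  have h6 : (Set.range (fun i : Fin N => s((Sum.inl r : V ⊕ Fin N), Sum.inr i))).ncard ≤ N := by
    rw [← Set.image_univ]
    refine (Set.ncard_image_le (Set.toFinite _)).trans ?_
    rw [Set.ncard_univ, Nat.card_eq_fintype_card, Fintype.card_fin]
  have h7 := ncard_edge T hT
  have h8 : Nat.card (V ⊕ Fin N) = Fintype.card V + N := by
    rw [Nat.card_eq_fintype_card, Fintype.card_sum, Fintype.card_fin]
  rw [h8] at h1 ⊢
  have h9 : Nat.card (addLeaves T r N).edgeSet = (addLeaves T r N).edgeSet.ncard := rfl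
  rw [h9] at h1 ⊢
  omega

theorem harm_of_cl {V : Type} [Fintype V] (T : SimpleGraph V) (hT : T.IsTree) (r : V)
    (h : CL T r) : ∃ C : ℕ, ∀ N : ℕ, C ≤ N → Harmonious (addLeaves T r N) := by
  classical
  obtain ⟨f, D, hD, h0, hinj, hcov⟩ := h
  obtain ⟨K, hK⟩ : ∃ K : ℕ, ∀ v, (f v).natAbs ≤ K :=
    ⟨univ.sup (fun v => (f v).natAbs), fun v => Finset.le_sup (f := fun v => (f v).natAbs) (mem_univ v)⟩
  refine ⟨2 * K + 1, fun N hN => ?_⟩
  have hlv : ∀ x, (Sum.inl x : V ⊕ Fin N) ∉ lv (addLeaves T r N) (Sum.inl r) ↔ x ∉ lv T r := by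
    intro x
    rw [not_iff_not]
    constructor
    · rintro ⟨h1, h2⟩
      refine ⟨(al_inl T r N r x).1 h1, fun y hy => ?_⟩
      exact Sum.inl_injective (h2 (Sum.inl y) ((al_inl T r N x y).2 hy))
    · rintro ⟨h1, h2⟩
      refine ⟨(al_inl T r N r x).2 h1, ?_⟩
      rintro (y | i) hy
      · rw [h2 y ((al_inl T r N x y).1 hy)]
      · have h3 := (al_inr T r N i (Sum.inl x)).1 hy.symm
        rw [Sum.inl_injective h3] at h1
        exact absurd h1 (T.loopless.irrefl r)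
  have hlr : ∀ i : Fin N, (Sum.inr i : V ⊕ Fin N) ∈ lv (addLeaves T r N) (Sum.inl r) := by
    intro i
    exact ⟨((al_inr T r N i (Sum.inl r)).2 rfl).symm, fun y hy => (al_inr T r N i y).1 hy⟩
  have hrlv : r ∉ lv T r := fun h => T.loopless.irrefl r h.1
  have hcard := ncard_edge (addLeaves T r N) (al_tree T hT r N)
  rw [Fintype.card_sum, Fintype.card_fin] at hcard
  have hVpos : 0 < Fintype.card V := Fintype.card_pos_iff.2 ⟨r⟩
  refine closedD (addLeaves T r N) (al_tree T hT r N) (Sum.inl r) (Sum.elim f (fun _ => 0))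
    (Sum.inl D) (-K) h0 ((hlv r).2 hrlv) ((hlv D).2 hD) (by omega) ?_ ?_ ?_
  · rintro (x | i) hx hxD (y | k) hy hyD hxy
    · congr 1
      exact hinj x ((hlv x).1 hx) (fun e => hxD (by rw [e])) y ((hlv y).1 hy)
        (fun e => hyD (by rw [e])) hxy
    · exact absurd (hlr k) hy
    · exact absurd (hlr i) hx
    · exact absurd (hlr i) hx
  · rintro (v | i) hv hvD
    · obtain ⟨x, y, hx, hy, hxy, hs⟩ := hcov v ((hlv v).1 hv) (fun e => hvD (by rw [e]))
      exact ⟨Sum.inl x, Sum.inl y, (hlv x).2 hx, (hlv y).2 hy, (al_inl T r N x y).2 hxy, hs⟩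
    · exact absurd (hlr i) hv
  · rintro (v | i) hv
    · have h1 := hK v
      show (-K : ℤ) ≤ f v ∧ f v < -K + _
      omega
    · exact absurd (hlr i) hv

end Pool.Agent.H57.HV2
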