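import Pool.Agent.H57.HV2.Pre
import Pool.Agent.H57.HV2.Asm

/-!
# One lobster branch and another branch
-/

set_option autoImplicit false

namespace Pool.Agent.H57.HV2

open Finset Lob Pool.Agent.H57.HV

theorem not_lv' {V : Type} {G : SimpleGraph V} {r x : V} (h : G.Adj r x) (hx : x ∉ lv G r) :
    ∃ y, G.Adj x y ∧ y ≠ r := by
  by_contra hcon
  apply hx
  refine ⟨h, fun y hy => ?_⟩
  by_contra hyr
  exact hcon ⟨y, hy, hyr⟩

theorem lobs {V : Type} [Fintype V] (G : SimpleGraph V) (r x y y' : V) {par : V → V}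
    {dep : V → ℕ} (h : Rt G r par dep) (hx : par x = r) (hxr : x ≠ r) (hy : par y = r)
    (hyr : y ≠ r) (hxy : x ≠ y) (hy' : par y' = y) (w : ℕ → V) (l : ℕ) (hw0 : w 0 = x)
    (hw : ∀ i ≤ l, par (w (i + 1)) = w i)
    (hlob : ∀ v ∈ Br par x, ∃ i ≤ l, v = w i ∨ par v = w i ∨ par (par v) = w i)
    (hu : (∃ v, par v = w (l + 1)) ∨ ∀ v ∈ Br par x, v = x ∨ ∃ i ≤ l, par v = w i) : CL G r := by
  classical
  have hd := path_dep h hxr w hw0 l hw
  have hinj : ∀ i ≤ l + 1, ∀ j ≤ l + 1, w i = w j → i = j := by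
    intro i hi j hj e
    have h1 := (hd i hi).2
    have h2 := (hd j hj).2
    rw [e] at h1
    omega
  have hwBr : ∀ i ≤ l + 1, w i ∈ Br par x := by
    intro i
    induction i with
    | zero =>
      intro _
      rw [hw0]
      exact br_self _ _
    | succ i ih =>
      intro hi
      apply br_child
      rw [hw i (by omega)]
      exact ih (by omega)
  have hBrr : ∀ v ∈ Br par x, v ≠ r := by
    rintro v hv rfl
    exact br_root h.root hxr hv
  have hBrx : ∀ v ∈ Br par x, par v ≠ r → par v ∈ Br par x := by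
    intro v hv hvr
    apply br_par hv
    rintro rfl
    exact hvr hx
  have hyBr : y ∉ Br par x := fun h1 => hxy (br_top h.root hxr h1 hy).symm
  obtain ⟨X, hX⟩ := exists_fin (fun v => v ∉ lv G r ∧ v ≠ r ∧ par v = r)
  obtain ⟨P, hP⟩ : ∃ P : ℕ → Finset V, ∀ i v, v ∈ P i ↔ (∃ j ≤ i, par v = w j) ∧ v ≠ w (i + 1) :=
    ⟨fun i => univ.filter (fun v => (∃ j ≤ i, par v = w j) ∧ v ≠ w (i + 1)), fun i v => by
      rw [mem_filter]
      exact ⟨fun h => h.2, fun h => ⟨mem_univ _, h⟩⟩⟩
  have hnX : ∀ v, par v ≠ r → v ∉ X := fun v hv h1 => hv ((hX v).1 h1).2.2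
  have hxX : x ∈ X := by
    rw [hX]
    refine ⟨?_, hxr, hx⟩
    have h1 := not_lv_of_child h (hd 1 (by omega)).1
    rw [hw 0 (by omega), hw0] at h1
    exact h1
  have hy'r : par y' ≠ r := by
    rw [hy']
    exact hyr
  have hyX : y ∈ X := by
    rw [hX]
    refine ⟨?_, hyr, hy⟩
    have h1 : y' ≠ r := by
      rintro rfl
      exact hy'r h.root
    have h2 := not_lv_of_child h h1
    rwa [hy'] at h2
  obtain ⟨f1, M1, h1, h1n, hdet, hwl, hz1⟩ := pre h hx hxr X hX hxX w hw0 l hw P hP l le_rfl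
  have hPBr : ∀ v ∈ P l, v ∈ Br par x ∧ par v ≠ r := by
    intro v hv
    obtain ⟨⟨j, hj, e⟩, _⟩ := (hP l v).1 hv
    refine ⟨br_child (by rw [e]; exact hwBr j (by omega)), ?_⟩
    rw [e]
    exact (hd j (by omega)).1
  -- the other branches
  obtain ⟨YO, hYO⟩ := exists_fin (fun v => par v ≠ r ∧ v ∉ Br par x)
  obtain ⟨f2, M2, h2, h2n, h2le, h2ge, h2K⟩ := h1.complete dep YO
    (fun v hv => hnX v ((hYO v).1 hv).1) (fun v hv hv' => ((hYO v).1 hv).2 (hPBr v hv').1) (by
      intro v hv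
      rw [hYO] at hv
      have h3 : v ≠ r := by
        rintro rfl
        exact hv.1 h.root
      by_cases h4 : par (par v) = r
      · left
        rw [hX]
        exact ⟨not_lv_of_child h h3, hv.1, h4⟩
      · right; right
        rw [hYO]
        exact ⟨h4, fun h5 => hv.2 (br_child h5)⟩) (by
      intro v hv
      have h3 : v ≠ r := by
        rintro rfl
        exact ((hYO v).1 hv).1 h.root
      have := h.dep v h3
      omega)
  have hy'O : y' ∈ YO := by
    rw [hYO]
    refine ⟨hy'r, fun h3 => hyBr ?_⟩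
    have h4 := hBrx y' h3 hy'r
    rwa [hy'] at h4
  have hf2X : ∀ v ∈ X, f2 v = un v := by
    intro v hv
    rw [h2n v (fun h3 => ((hYO v).1 h3).1 ((hX v).1 hv).2.2),
      h1n v (fun h3 => (hPBr v h3).2 ((hX v).1 hv).2.2)]
  have hf2P : ∀ v ∈ P l, f2 v = f1 v := fun v hv => h2n v (fun h3 => ((hYO v).1 h3).2 (hPBr v hv).1)
  have hM2K : M2 r * M1 x = M2 x * M1 r := by
    have h3 := h2K (kp r x (M1 x) (M1 r)) ((mem_kp _ _ _ _ _).2 (mul_comm _ _)) (by
      intro v hv hpv
      rw [hYO] at hv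
      have h4 : v ≠ r := by
        rintro rfl
        exact hv.1 h.root
      have h5 : par v ∉ Br par x := fun h6 => hv.2 (br_child h6)
      have h6 : par (par v) = r := by
        by_contra h7
        apply hpv
        rw [hYO]
        exact ⟨h7, h5⟩
      have h7 : par v ∈ X := by
        rw [hX]
        exact ⟨not_lv_of_child h h4, hv.1, h6⟩
      rw [h1n _ (fun h8 => h5 (hPBr _ h8).1), mem_kp, un_ne hv.1.symm, un_ne]
      · ring
      · intro e
        apply h5
        rw [← e]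
        exact br_self _ _)
    exact h3.2
  have hM2y : 1 ≤ M2 y := by
    have h3 : f2 y' y + f2 (par y') y ≤ M2 y := h2.sum y' (mem_union_right _ hy'O) y
    rw [hy', hf2X y hyX, un_same] at h3
    have h4 : (0 : V → ℤ) y ≤ f2 y' y := (h2.pos y' (Or.inr (mem_union_right _ hy'O))).le y
    have h5 : (0 : V → ℤ) y = 0 := rfl
    omega
  have hM2pos : 0 < M2 := lt_of_lt_of_le h2.bpos h2.ble
  -- the vertex `u`
  obtain ⟨u, hu'⟩ : ∃ u, u = w (l + 1) := ⟨_, rfl⟩
  rw [← hu'] at hu
  have hpu : par u = w l := by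
    rw [hu']
    exact hw l le_rfl
  have hwlr : w l ≠ r := (hd l (by omega)).1
  have hur : u ≠ r := by
    rw [hu']
    exact (hd (l + 1) le_rfl).1
  have huBr : u ∈ Br par x := by
    rw [hu']
    exact hwBr (l + 1) le_rfl
  have hwu : ∀ j ≤ l, w j ≠ u := by
    intro j hj e
    rw [hu'] at e
    have h3 := hinj j (by omega) (l + 1) le_rfl e
    omega
  have huX : u ∉ X := hnX u (by rw [hpu]; exact hwlr)
  have huP : u ∉ P l := fun h3 => ((hP l u).1 h3).2 hu'
  have huO : u ∉ YO := fun h3 => ((hYO u).1 h3).2 huBr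
  have hf2w : f2 (w l) = f1 (w l) := by
    rcases hwl with h3 | h3
    · rw [hf2X _ h3, h1n _ (fun h4 => (hPBr _ h4).2 ((hX _).1 h3).2.2)]
    · exact hf2P _ h3
  have h3 := h2.step huX (by
    rw [mem_union, not_or]
    exact ⟨huP, huO⟩) (by
    rw [hpu]
    rcases hwl with h4 | h4
    · exact Or.inl h4
    · exact Or.inr (mem_union_left _ h4))
  rw [hpu, hf2w] at h3
  obtain ⟨f3, hf3⟩ : ∃ f3, f3 = Function.update f2 u M2 := ⟨_, rfl⟩
  obtain ⟨M3, hM3⟩ : ∃ M3, M3 = M2 + f1 (w l) := ⟨_, rfl⟩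
  obtain ⟨B3, hB3⟩ : ∃ B3, B3 = insert u (P l ∪ YO) := ⟨_, rfl⟩
  rw [← hf3, ← hM3, ← hB3] at h3
  have hf3u : f3 u = M2 := by rw [hf3, Function.update_self]
  have hf3n : ∀ v, v ≠ u → f3 v = f2 v := fun v hv => by rw [hf3, Function.update_of_ne hv]
  have hmB3 : ∀ v, v ∈ B3 ↔ v = u ∨ v ∈ P l ∨ v ∈ YO := by
    intro v
    rw [hB3, mem_insert, mem_union]
  have huB3 : u ∈ B3 := (hmB3 u).2 (Or.inl rfl)
  -- the leaves of `u` and the others
  obtain ⟨Lu, hLu⟩ := exists_fin (fun v => par v = u)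
  obtain ⟨T, hT⟩ := exists_fin (fun v => v ∈ Br par x ∧ par v ≠ r ∧ (∀ j ≤ l, par v ≠ w j) ∧ par v ≠ u)
  have hB3r : ∀ v ∈ B3, par v ≠ r := by
    intro v hv
    rcases (hmB3 v).1 hv with h4 | h4 | h4
    · rw [h4, hpu]
      exact hwlr
    · exact (hPBr v h4).2
    · exact ((hYO v).1 h4).1
  have hLuX : ∀ v ∈ Lu, v ∉ X := fun v hv => hnX v (by rw [(hLu v).1 hv]; exact hur)
  have hLuB : ∀ v ∈ Lu, v ∉ B3 := by
    intro v hv hv'
    rw [hLu] at hv
    rcases (hmB3 v).1 hv' with h4 | h4 | h4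
    · rw [h4, hpu] at hv
      exact hwu l le_rfl hv
    · obtain ⟨⟨j, hj, e⟩, _⟩ := (hP l v).1 h4
      rw [hv] at e
      exact hwu j hj e.symm
    · exact ((hYO v).1 h4).2 (br_child (by rw [hv]; exact huBr))
  have hBT : ∀ v, v ∈ B3 ∨ v ∈ Lu → v ∉ T := by
    intro v hv hv'
    rw [hT] at hv'
    rcases hv with hv | hv
    · rcases (hmB3 v).1 hv with h4 | h4 | h4
      · rw [h4, hpu] at hv'
        exact hv'.2.2.1 l le_rfl rfl
      · obtain ⟨⟨j, hj, e⟩, _⟩ := (hP l v).1 h4
        exact hv'.2.2.1 j hj e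
      · exact ((hYO v).1 h4).2 hv'.1
    · exact hv'.2.2.2 ((hLu v).1 hv)
  have hall : ∀ v, par v ≠ r → v ∈ B3 ∨ v ∈ Lu ∨ v ∈ T := by
    intro v hv
    by_cases h4 : v ∈ Br par x
    · by_cases h5 : ∃ j ≤ l, par v = w j
      · left
        rw [hmB3]
        by_cases h6 : v = u
        · exact Or.inl h6
        · right; left
          rw [hP, ← hu']
          exact ⟨h5, h6⟩
      · push Not at h5
        right
        by_cases h6 : par v = u
        · exact Or.inl ((hLu v).2 h6)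
        · exact Or.inr ((hT v).2 ⟨h4, hv, h5, h6⟩)
    · left
      rw [hmB3]
      exact Or.inr (Or.inr ((hYO v).2 ⟨hv, h4⟩))
  have hTP : ∀ t ∈ T, par t ∈ P l := by
    intro t ht
    rw [hT] at ht
    obtain ⟨i, hi, h4⟩ := hlob t ht.1
    rw [hP, ← hu']
    rcases h4 with h4 | h4 | h4
    · exfalso
      by_cases hi0 : i = 0
      · rw [h4, hi0, hw0, hx] at ht
        exact ht.2.1 rfl
      · obtain ⟨k, rfl⟩ : ∃ k, i = k + 1 := ⟨i - 1, by omega⟩
        rw [h4, hw k (by omega)] at ht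
        exact ht.2.2.1 k (by omega) rfl
    · exact absurd h4 (ht.2.2.1 i hi)
    · exact ⟨⟨i, hi, h4⟩, ht.2.2.2⟩
  -- every root has a child in `B3`
  have hXlt : ∀ v ∈ X, un v < M3 := by
    intro v hv
    have h4 := (hX v).1 hv
    have hvr : G.Adj r v := by
      have h5 := h.adj v h4.2.1
      rw [h4.2.2] at h5
      exact h5.symm
    obtain ⟨z, hz, hzr⟩ := not_lv' hvr h4.1
    have hpz : par z = v := by
      rcases h.cs v z hz with h5 | h5
      · exact h5.2
      · exact absurd (h5.2.symm.trans h4.2.2) hzr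
    have hzB : z ∈ B3 := by
      rcases hall z (by rw [hpz]; exact h4.2.1) with h5 | h5 | h5
      · exact h5
      · rw [hLu, hpz] at h5
        rw [h5] at hv
        exact absurd hv huX
      · have h6 := (hPBr _ (hTP z h5)).2
        rw [hpz] at h6
        exact absurd h4.2.2 h6
    have h5 := h3.sum z hzB
    rw [hpz, hf3n v (fun e => huX (e ▸ hv)), hf2X v hv] at h5
    exact lt_of_lt_of_le (lt_add_of_pos_left _ (h3.pos z (Or.inr hzB))) h5
  obtain ⟨R, hR⟩ : ∃ R : V → ℤ, R = M3 + Lu.card • M2 := ⟨_, rfl⟩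
  have hφ : R r * M1 x - R x * M1 r = 1 ∨ R r * M1 x - R x * M1 r = -1 := by
    have e1 : R r = M2 r + f1 (w l) r + (Lu.card : ℤ) * M2 r := by
      rw [hR, hM3, Pi.add_apply, Pi.add_apply, Pi.smul_apply, nsmul_eq_mul]
    have e2 : R x = M2 x + f1 (w l) x + (Lu.card : ℤ) * M2 x := by
      rw [hR, hM3, Pi.add_apply, Pi.add_apply, Pi.smul_apply, nsmul_eq_mul]
    rw [e1, e2]
    rcases hdet with h4 | h4
    · left
      linear_combination h4 + (1 + (Lu.card : ℤ)) * hM2K
    · right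
      linear_combination h4 + (1 + (Lu.card : ℤ)) * hM2K
  have hM3y : 1 ≤ M3 y := by
    have h4 : M2 y ≤ M3 y := by
      have h5 : M3 y = M2 y + f1 (w l) y := by rw [hM3]; rfl
      have h6 : (0 : V → ℤ) y ≤ f1 (w l) y := (h1.pos _ hwl).le y
      have h7 : (0 : V → ℤ) y = 0 := rfl
      omega
    omega
  have hRy : R y = M3 y + (Lu.card : ℤ) * M2 y := by
    rw [hR, Pi.add_apply, Pi.smul_apply, nsmul_eq_mul]
  have hRy1 : 1 ≤ R y := by
    rw [hRy]
    have h4 : 0 ≤ (Lu.card : ℤ) * M2 y := mul_nonneg (by omega) (by omega)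
    omega
  have hTne : T.Nonempty → Lu.Nonempty := by
    rintro ⟨t, ht⟩
    rcases hu with ⟨v, hv⟩ | h4
    · exact ⟨v, (hLu v).2 hv⟩
    · exfalso
      have h5 := (hT t).1 ht
      rcases h4 t h5.1 with h6 | ⟨i, hi, h6⟩
      · rw [h6] at h5
        exact h5.2.1 hx
      · exact h5.2.2.1 i hi h6
  have hf3P : ∀ v ∈ P l, f3 v = f1 v := fun v hv => by
    rw [hf3n v (fun e => huP (e ▸ hv)), hf2P v hv]
  have hf3X : ∀ v ∈ X, f3 v = un v := fun v hv => by
    rw [hf3n v (fun e => huX (e ▸ hv)), hf2X v hv]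
  have hPLu : ∀ v ∈ P l, v ∉ Lu := fun v hv hv' => hLuB v hv' ((hmB3 v).2 (Or.inr (Or.inl hv)))
  have hTr : ∀ v ∈ T, par v ≠ r := fun v hv => ((hT v).1 hv).2.1
  by_cases hb : ∃ t ∈ T, f1 (par t) = un r
  · -- variant (b)
    obtain ⟨t0, ht0, hft0⟩ := hb
    obtain ⟨y1, hy1⟩ := hTne ⟨t0, ht0⟩
    obtain ⟨f4, h4, h4n, h4ge⟩ := h3.leaves u (Or.inr huB3) (Lu.erase y1)
      (fun v hv => hLuX v (mem_of_mem_erase hv)) (fun v hv => hLuB v (mem_of_mem_erase hv))
      (fun v hv => (hLu v).1 (mem_of_mem_erase hv))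
    rw [hf3u] at h4
    obtain ⟨cur, hcur⟩ : ∃ cur, cur = M3 + (Lu.erase y1).card • M2 := ⟨_, rfl⟩
    rw [← hcur] at h4
    have hcR : R = cur + M2 := by
      have h5 := card_erase_add_one hy1
      rw [hR, hcur, ← h5, succ_nsmul, add_assoc]
    obtain ⟨B4, hB4⟩ : ∃ B4, B4 = B3 ∪ Lu.erase y1 := ⟨_, rfl⟩
    rw [← hB4] at h4
    have hmB4 : ∀ v, v ∈ B4 ↔ v ∈ B3 ∨ (v ≠ y1 ∧ v ∈ Lu) := by
      intro v
      rw [hB4, mem_union, mem_erase]
    have hPB4 : ∀ v ∈ P l, v ∈ B4 := fun v hv =>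
      (hmB4 v).2 (Or.inl ((hmB3 v).2 (Or.inr (Or.inl hv))))
    have hf4P : ∀ v ∈ P l, f4 v = f1 v := fun v hv => by
      rw [h4n v (fun h5 => hPLu v hv (mem_of_mem_erase h5)), hf3P v hv]
    have ht0B : t0 ∉ B4 := by
      intro h5
      rcases (hmB4 t0).1 h5 with h6 | h6
      · exact hBT t0 (Or.inl h6) ht0
      · exact hBT t0 (Or.inr h6.2) ht0
    have h5 := h4.step (v := t0) (hnX t0 (hTr t0 ht0)) ht0B (Or.inr (hPB4 _ (hTP t0 ht0)))
    rw [hf4P _ (hTP t0 ht0), hft0] at h5
    obtain ⟨f5, hf5⟩ : ∃ f5, f5 = Function.update f4 t0 cur := ⟨_, rfl⟩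
    rw [← hf5] at h5
    have hut0 : u ≠ t0 := by
      rintro rfl
      exact hBT u (Or.inl huB3) ht0
    have hf5u : f5 u = M2 := by
      rw [hf5, Function.update_of_ne hut0, h4n u (fun h6 => by
        have h7 := (hLu u).1 (mem_of_mem_erase h6)
        rw [hpu] at h7
        exact hwu l le_rfl h7), hf3u]
    have hpy1 : par y1 = u := (hLu y1).1 hy1
    have hy1t0 : y1 ≠ t0 := by
      rintro rfl
      exact hBT y1 (Or.inr hy1) ht0
    have hy1B : y1 ∉ insert t0 B4 := by
      rw [mem_insert, not_or]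
      refine ⟨hy1t0, ?_⟩
      rw [hmB4, not_or]
      exact ⟨hLuB y1 hy1, fun h6 => h6.1 rfl⟩
    have h6 := h5.step (v := y1) (hLuX y1 hy1) hy1B (by
      rw [hpy1]
      exact Or.inr (mem_insert_of_mem ((hmB4 u).2 (Or.inl huB3))))
    rw [hpy1, hf5u] at h6
    obtain ⟨f6, hf6⟩ : ∃ f6, f6 = Function.update f5 y1 (cur + un r) := ⟨_, rfl⟩
    rw [← hf6] at h6
    have hFR : cur + un r + M2 = R + un r := by
      rw [hcR]
      abel
    rw [hFR] at h6
    have hf6n : ∀ v, v ≠ y1 → v ≠ t0 → f6 v = f4 v := by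
      intro v hv hv'
      rw [hf6, Function.update_of_ne hv, hf5, Function.update_of_ne hv']
    have hf6P : ∀ v ∈ P l, f6 v = f1 v := by
      intro v hv
      rw [hf6n v (by rintro rfl; exact hPLu v hv hy1)
        (by rintro rfl; exact ht0B (hPB4 v hv)), hf4P v hv]
    have hf6X : ∀ v ∈ X, f6 v = un v := by
      intro v hv
      rw [hf6n v (by rintro rfl; exact hLuX v hy1 hv)
        (by rintro rfl; exact hTr v ht0 ((hX v).1 hv).2.2),
        h4n v (fun h7 => hLuX v (mem_of_mem_erase h7) hv), hf3X v hv]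
    have hrM2 : un r < M2 := by
      have h7 := h1.lt _ (hTP t0 ht0)
      rw [hft0] at h7
      exact lt_of_lt_of_le h7 h2le
    have hcurR : cur < R := by
      rw [hcR]
      exact lt_add_of_pos_right _ hM2pos
    have hcury : cur y < R y := by
      have h7 : R y = cur y + M2 y := by rw [hcR]; rfl
      omega
    have hM3cur : M3 ≤ cur := by
      rw [hcur]
      exact le_add_of_nonneg_right (nsmul_nonneg hM2pos.le _)
    have hle : ∀ v, v ∈ X ∨ v ∈ insert y1 (insert t0 B4) →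
        f6 v < R ∧ f6 v y < R y := by
      intro v hv
      have hsm : ∀ z : V → ℤ, z ≤ cur → z < R ∧ z y < R y := fun z hz =>
        ⟨lt_of_le_of_lt hz hcurR, lt_of_le_of_lt (hz y) hcury⟩
      rcases hv with hv | hv
      · rw [hf6X v hv]
        exact hsm _ ((hXlt v hv).le.trans hM3cur)
      · rcases mem_insert.1 hv with hv | hv1
        · rw [hv, hf6, Function.update_self]
          refine ⟨?_, ?_⟩
          · rw [hcR]
            exact add_lt_add_right hrM2 cur
          · have h7 : (cur + un r : V → ℤ) y = cur y + un r y := rfl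
            rw [h7, un_ne hyr]
            omega
        · rcases mem_insert.1 hv1 with hv | hv2
          · rw [hv, hf6, Function.update_of_ne hy1t0.symm, hf5, Function.update_self]
            exact hsm _ le_rfl
          · have hvy1 : v ≠ y1 := fun e => hy1B (mem_insert_of_mem (e ▸ hv2))
            have hvt0 : v ≠ t0 := fun e => ht0B (e ▸ hv2)
            rw [hf6n v hvy1 hvt0]
            exact hsm _ (h4.lt v hv2).le
    refine asm G r x y h X (insert y1 (insert t0 B4)) (T.erase t0) f6 (R + un r) R 0 (un r) hX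
      ?_ (fun v hv => hTr v (mem_of_mem_erase hv)) ?_ ?_ ?_ hf6X h6 ⟨y1, mem_insert_self _ _⟩
      (un_pos r) ?_ ?_ rfl ?_ (Or.inr ⟨rfl, rfl⟩) (M1 x) (M1 r) hφ hRy1
      (fun v hv => (hle v hv).1) (fun _ v hv => (hle v hv).2)
    · intro v hv
      rcases mem_insert.1 hv with hv | hv
      · rw [hv, hpy1]
        exact hur
      · rcases mem_insert.1 hv with hv | hv
        · rw [hv]
          exact hTr t0 ht0
        · rcases (hmB4 v).1 hv with hv | hv
          · exact hB3r v hv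
          · rw [(hLu v).1 hv.2]
            exact hur
    · intro v hv
      rw [mem_insert, mem_insert, mem_erase, hmB4]
      rcases hall v hv with h7 | h7 | h7
      · exact Or.inl (Or.inr (Or.inr (Or.inl h7)))
      · by_cases h8 : v = y1
        · exact Or.inl (Or.inl h8)
        · exact Or.inl (Or.inr (Or.inr (Or.inr ⟨h8, h7⟩)))
      · by_cases h8 : v = t0
        · exact Or.inl (Or.inr (Or.inl h8))
        · exact Or.inr ⟨h8, h7⟩
    · intro v hv hv'
      rw [mem_erase] at hv'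
      rcases mem_insert.1 hv with hv | hv
      · rw [hv] at hv'
        exact hBT y1 (Or.inr hy1) hv'.2
      · rcases mem_insert.1 hv with hv | hv
        · exact hv'.1 hv
        · rcases (hmB4 v).1 hv with hv | hv
          · exact hBT v (Or.inl hv) hv'.2
          · exact hBT v (Or.inr hv.2) hv'.2
    · intro t ht
      exact mem_insert_of_mem (mem_insert_of_mem (hPB4 _ (hTP t (mem_of_mem_erase ht))))
    · intro t ht
      have h7 := hTP t (mem_of_mem_erase ht)
      rw [hf6P _ h7]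
      exact h1.le _ h7
    · rw [zero_sub]
      exact neg_lt_zero.2 (un_pos r)
    · intro t ht
      have h7 := hTP t (mem_of_mem_erase ht)
      rw [hf6P _ h7]
      exact (hz1 y hyr hxy.symm).2 _ (Or.inl h7)
  · -- variant (a)
    push Not at hb
    obtain ⟨f4, h4, h4n, h4ge⟩ := h3.leaves u (Or.inr huB3) Lu hLuX hLuB (fun v hv => (hLu v).1 hv)
    rw [hf3u, ← hR] at h4
    have hf4P : ∀ v ∈ P l, f4 v = f1 v := fun v hv => by
      rw [h4n v (hPLu v hv), hf3P v hv]
    have hf4X : ∀ v ∈ X, f4 v = un v := fun v hv => by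
      rw [h4n v (fun h5 => hLuX v h5 hv), hf3X v hv]
    have hM3R : M3 ≤ R := by
      rw [hR]
      exact le_add_of_nonneg_right (nsmul_nonneg hM2pos.le _)
    have hmB : ∀ v, v ∈ B3 ∪ Lu ↔ v ∈ B3 ∨ v ∈ Lu := fun v => mem_union
    refine asm G r x y h X (B3 ∪ Lu) T f4 R R (un r) (un r + un x) hX ?_ hTr ?_ ?_ ?_ hf4X h4
      ⟨u, (hmB u).2 (Or.inl huB3)⟩ (add_pos (un_pos r) (un_pos x)) ?_ ?_ (un_ne hyr) ?_
      (Or.inl ⟨rfl, rfl⟩) (M1 x) (M1 r) hφ hRy1 ?_ ?_
    · intro v hv
      rcases (hmB v).1 hv with hv | hv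
      · exact hB3r v hv
      · rw [(hLu v).1 hv]
        exact hur
    · intro v hv
      rw [hmB]
      rcases hall v hv with h5 | h5 | h5
      · exact Or.inl (Or.inl h5)
      · exact Or.inl (Or.inr h5)
      · exact Or.inr h5
    · intro v hv
      exact hBT v ((hmB v).1 hv)
    · intro t ht
      exact (hmB _).2 (Or.inl ((hmB3 _).2 (Or.inr (Or.inl (hTP t ht)))))
    · intro t ht
      have h5 := hTP t ht
      rw [hf4P _ h5]
      rcases h1.fst with h6 | ⟨z, hz, h7, h8, h9, _⟩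
      · rw [h6] at h5
        exact absurd h5 (notMem_empty _)
      · have h10 : par z = x := by
          obtain ⟨⟨j, hj, e⟩, _⟩ := (hP l z).1 hz
          have h11 := ((hX _).1 h8).2.2
          rw [e] at h11 ⊢
          by_cases hj0 : j = 0
          · rw [hj0, hw0]
          · obtain ⟨k, rfl⟩ : ∃ k, j = k + 1 := ⟨j - 1, by omega⟩
            rw [hw k (by omega)] at h11
            exact absurd h11 (hd k (by omega)).1
        have h11 := h9 _ h5 (fun e => hb t ht (by rw [e, h7]))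
        rw [h10, h1n x (fun h12 => (hPBr x h12).2 hx)] at h11
        exact h11
    · have h5 : (un r - (un r + un x) : V → ℤ) = -un x := by abel
      rw [h5]
      exact neg_lt_zero.2 (un_pos x)
    · intro t ht
      rw [hf4P _ (hTP t ht)]
      exact (hz1 y hyr hxy.symm).2 _ (Or.inl (hTP t ht))
    · rintro v (hv | hv)
      · rw [hf4X v hv]
        exact lt_of_lt_of_le (hXlt v hv) hM3R
      · exact h4.lt v hv
    · intro hTn v hv
      have hn : 1 ≤ (Lu.card : ℤ) := by
        have := (hTne hTn).card_pos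
        omega
      have hn2 : M2 y ≤ (Lu.card : ℤ) * M2 y := by nlinarith
      rcases hv with hv | hv
      · rw [hf4X v hv]
        have h5 : un v y ≤ M3 y := (hXlt v hv).le y
        omega
      · by_cases h5 : v ∈ Lu
        · have h6 := h4.sum v hv
          rw [(hLu v).1 h5, h4n u (fun h7 => by
            have h8 := (hLu u).1 h7
            rw [hpu] at h8
            exact hwu l le_rfl h8), hf3u] at h6
          have h7 : f4 v y + M2 y ≤ R y := h6 y
          omega
        · rw [h4n v h5]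
          have h6 : v ∈ B3 := by
            rcases (hmB v).1 hv with h7 | h7
            · exact h7
            · exact absurd h7 h5
          have h7 : f3 v y ≤ M3 y := (h3.lt v h6).le y
          omega

end Pool.Agent.H57.HV2
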