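import Pool.Agent.H57.HV2.Three

/-!
# Placing a descending path and the children of its vertices
-/

set_option autoImplicit false

namespace Pool.Agent.H57.HV2

open Finset Lob Pool.Agent.H57.HV

theorem path_dep {V : Type} {G : SimpleGraph V} {r x : V} {par : V → V} {dep : V → ℕ}
    (h : Rt G r par dep) (hxr : x ≠ r) (w : ℕ → V) (hw0 : w 0 = x) (l : ℕ)
    (hw : ∀ i ≤ l, par (w (i + 1)) = w i) : ∀ i ≤ l + 1, w i ≠ r ∧ dep (w i) = dep x + i := by
  intro i
  induction i with
  | zero => exact fun _ => ⟨by rw [hw0]; exact hxr, by rw [hw0]; rfl⟩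
  | succ i ih =>
    intro hi
    obtain ⟨h1, h2⟩ := ih (by omega)
    have h3 := hw i (by omega)
    have h4 : w (i + 1) ≠ r := by
      intro e
      rw [e, h.root] at h3
      exact h1 h3.symm
    refine ⟨h4, ?_⟩
    rw [h.dep _ h4, h3, h2]
    rfl

theorem pre {V : Type} [Fintype V] [DecidableEq V] {G : SimpleGraph V} {r x : V} {par : V → V}
    {dep : V → ℕ} (h : Rt G r par dep) (hx : par x = r) (hxr : x ≠ r) (X : Finset V)
    (hX : ∀ v, v ∈ X ↔ v ∉ lv G r ∧ v ≠ r ∧ par v = r) (hxX : x ∈ X) (w : ℕ → V) (hw0 : w 0 = x)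
    (l : ℕ) (hw : ∀ i ≤ l, par (w (i + 1)) = w i) (P : ℕ → Finset V)
    (hP : ∀ i v, v ∈ P i ↔ (∃ j ≤ i, par v = w j) ∧ v ≠ w (i + 1)) :
    ∀ i ≤ l, ∃ f : V → V → ℤ, ∃ M : V → ℤ, Ch par X (P i) f (un r) M ∧
      (∀ v, v ∉ P i → f v = un v) ∧
      (f (w i) r * M x - f (w i) x * M r = 1 ∨ f (w i) r * M x - f (w i) x * M r = -1) ∧
      (w i ∈ X ∨ w i ∈ P i) ∧
      ∀ j, j ≠ r → j ≠ x → M j = 0 ∧ ∀ v, v ∈ P i ∨ v = x → f v j = 0 := by
  have hd := path_dep h hxr w hw0 l hw
  have hinj : ∀ i ≤ l + 1, ∀ j ≤ l + 1, w i = w j → i = j := by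
    intro i hi j hj e
    have h1 := (hd i hi).2
    have h2 := (hd j hj).2
    rw [e] at h1
    omega
  have hsq : ∀ (B : Finset V) (f : V → V → ℤ) (M : V → ℤ), Ch par X B f (un r) M → ∀ j,
      M j = 0 → ∀ v ∈ B, f v j = 0 := by
    intro B f M hC j hj v hv
    have h1 : (0 : V → ℤ) j ≤ f v j := (hC.pos v (Or.inr hv)).le j
    have h2 : f v j ≤ M j := (hC.lt v hv).le j
    have h3 : (0 : V → ℤ) j = 0 := rfl
    omega
  have hnX : ∀ v, par v ≠ r → v ∉ X := fun v hv h1 => hv ((hX v).1 h1).2.2
  intro i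
  induction i with
  | zero =>
    intro _
    have h0 : Ch par X ∅ (fun v => un v) (un r : V → ℤ) (un r) :=
      Ch.empty par X _ _ (fun v _ => un_pos v) (un_pos r)
    have hP0 : ∀ v ∈ P 0, par v = x := by
      intro v hv
      rw [hP] at hv
      obtain ⟨⟨j, hj, h1⟩, _⟩ := hv
      rw [h1, (by omega : j = 0), hw0]
    obtain ⟨f, h1, h2, h3⟩ := h0.leaves x (Or.inl hxX) (P 0)
      (fun v hv => hnX v (by rw [hP0 v hv]; exact hxr)) (fun v _ => notMem_empty v) hP0
    rw [empty_union] at h1
    have hxP : x ∉ P 0 := fun hxP => hxr (by rw [← hP0 x hxP, hx])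
    have hfx : f x = un x := h2 x hxP
    have hMj : ∀ j, j ≠ r → j ≠ x → (un r + (P 0).card • un x : V → ℤ) j = 0 := by
      intro j hj hj'
      rw [Pi.add_apply, Pi.smul_apply, un_ne hj, un_ne hj']
      simp
    refine ⟨f, _, h1, h2, ?_, ?_, ?_⟩
    · right
      rw [hw0, hfx, un_ne hxr.symm, un_same, Pi.add_apply, Pi.add_apply, Pi.smul_apply,
        Pi.smul_apply, un_ne hxr.symm, un_same]
      simp [un_same]
    · left
      rw [hw0]
      exact hxX
    · intro j hj hj'
      refine ⟨hMj j hj hj', ?_⟩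
      rintro v (hv | hv)
      · exact hsq _ _ _ h1 j (hMj j hj hj') v hv
      · rw [hv, hfx]
        exact un_ne hj'
  | succ i ih =>
    intro hi
    obtain ⟨f, M, h1, h2, h3, h4, h5⟩ := ih (by omega)
    have hpw := hw i (by omega)
    have hdw := hd (i + 1) (by omega)
    have hdi := hd i (by omega)
    have hwX : w (i + 1) ∉ X := hnX _ (by rw [hpw]; exact hdi.1)
    have hwP : w (i + 1) ∉ P i := fun h6 => ((hP i _).1 h6).2 rfl
    have h6 := h1.step hwX hwP (by rw [hpw]; exact h4)
    rw [hpw] at h6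
    obtain ⟨L, hL⟩ := exists_fin (fun v => par v = w (i + 1) ∧ v ≠ w (i + 2))
    have hLw : ∀ v ∈ L, v ≠ w (i + 1) := by
      intro v hv e
      rw [hL, e, hpw] at hv
      have h7 := hinj i (by omega) (i + 1) (by omega) hv.1
      omega
    have hLP : ∀ v ∈ L, v ∉ P i := by
      intro v hv hv'
      rw [hL] at hv
      rw [hP] at hv'
      obtain ⟨⟨j, hj, h7⟩, _⟩ := hv'
      rw [hv.1] at h7
      have h8 := hinj (i + 1) (by omega) j (by omega) h7
      omega
    obtain ⟨f', h7, h8, h9⟩ := h6.leaves (w (i + 1)) (Or.inr (mem_insert_self _ _)) L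
      (fun v hv => hnX v (by rw [((hL v).1 hv).1]; exact hdw.1))
      (by
        intro v hv hv'
        rcases mem_insert.1 hv' with h10 | h10
        · exact hLw v hv h10
        · exact hLP v hv h10)
      (fun v hv => ((hL v).1 hv).1)
    have hPs : insert (w (i + 1)) (P i) ∪ L = P (i + 1) := by
      ext v
      rw [mem_union, mem_insert, hP, hP, hL]
      constructor
      · rintro ((h10 | ⟨⟨j, hj, h10⟩, h11⟩) | ⟨h10, h11⟩)
        · refine ⟨⟨i, by omega, by rw [h10, hpw]⟩, ?_⟩
          intro e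
          rw [h10] at e
          have h12 := hinj (i + 1) (by omega) (i + 2) (by omega) e
          omega
        · refine ⟨⟨j, by omega, h10⟩, ?_⟩
          intro e
          have h12 := hw (i + 1) (by omega)
          have h13 : par v = w (i + 1) := by rw [e]; exact h12
          rw [h10] at h13
          have h14 := hinj j (by omega) (i + 1) (by omega) h13
          omega
        · exact ⟨⟨i + 1, le_rfl, h10⟩, h11⟩
      · rintro ⟨⟨j, hj, h10⟩, h11⟩
        by_cases h12 : j = i + 1
        · right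
          rw [h12] at h10
          exact ⟨h10, h11⟩
        · left
          by_cases h13 : v = w (i + 1)
          · exact Or.inl h13
          · exact Or.inr ⟨⟨j, by omega, h10⟩, h13⟩
    rw [hPs, Function.update_self] at h7
    have hwL : w (i + 1) ∉ L := fun h10 => hLw _ h10 rfl
    have hf'w : f' (w (i + 1)) = M := by
      rw [h8 _ hwL, Function.update_self]
    have hfwj : ∀ j, j ≠ r → j ≠ x → f (w i) j = 0 := by
      intro j hj hj'
      rcases h4 with h10 | h10
      · have h11 : w i = x := by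
          have h12 := (hX _).1 h10
          by_contra hne
          have h13 : i ≠ 0 := by
            rintro rfl
            exact hne hw0
          obtain ⟨k, rfl⟩ : ∃ k, i = k + 1 := ⟨i - 1, by omega⟩
          rw [hw k (by omega)] at h12
          exact (hd k (by omega)).1 h12.2.2
        exact (h5 j hj hj').2 _ (Or.inr h11)
      · exact (h5 j hj hj').2 _ (Or.inl h10)
    have hMj : ∀ j, j ≠ r → j ≠ x → (M + f (w i) + L.card • M) j = 0 := by
      intro j hj hj'
      rw [Pi.add_apply, Pi.add_apply, Pi.smul_apply, (h5 j hj hj').1, hfwj j hj hj']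
      simp
    refine ⟨f', _, h7, ?_, ?_, ?_, ?_⟩
    · intro v hv
      rw [← hPs, mem_union, mem_insert, not_or, not_or] at hv
      rw [h8 v hv.2, Function.update_of_ne hv.1.1, h2 v hv.1.2]
    · rw [hf'w]
      simp only [Pi.add_apply, Pi.smul_apply]
      simp only [nsmul_eq_mul]
      rcases h3 with h10 | h10
      · right
        linear_combination (-1 : ℤ) * h10
      · left
        linear_combination (-1 : ℤ) * h10
    · right
      rw [← hPs]
      exact mem_union_left _ (mem_insert_self _ _)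
    · intro j hj hj'
      refine ⟨hMj j hj hj', ?_⟩
      rintro v (hv | hv)
      · exact hsq _ _ _ h7 j (hMj j hj hj') v hv
      · have hxn : x ∉ P (i + 1) := by
          rw [hP]
          rintro ⟨⟨k, hk, h10⟩, _⟩
          rw [hx] at h10
          exact (hd k (by omega)).1 h10.symm
        have hxf : f' x = un x := by
          rw [← hPs, mem_union, mem_insert, not_or, not_or] at hxn
          rw [h8 x hxn.2, Function.update_of_ne hxn.1.1, h2 x hxn.1.2]
        rw [hv, hxf]
        exact un_ne hj'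

end Pool.Agent.H57.HV2
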