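import Pool.Agent.H57.HV.Closed

/-!
# Rooted trees: parents and depths
-/

set_option autoImplicit false

namespace Pool.Agent.H57.HV2

open Finset Lob Pool.Agent.H57.HV

/-- `par` gives the parents and `dep` the depths for the root `r`. -/
structure Rt {V : Type} (G : SimpleGraph V) (r : V) (par : V → V) (dep : V → ℕ) : Prop where
  root : par r = r
  adj : ∀ v, v ≠ r → G.Adj v (par v)
  dep : ∀ v, v ≠ r → dep v = dep (par v) + 1
  cs : ∀ a b, G.Adj a b → (b ≠ r ∧ par b = a) ∨ (a ≠ r ∧ par a = b)

theorem exists_rt {V : Type} (G : SimpleGraph V) (hG : G.IsTree) (r : V) :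
    ∃ par : V → V, ∃ dep : V → ℕ, Rt G r par dep := by
  classical
  have hex : ∀ v, ∃ p : G.Walk v r, p.IsPath := by
    intro v
    obtain ⟨p⟩ := hG.connected v r
    exact ⟨p.toPath.1, p.toPath.2⟩
  choose P hP using hex
  have huniq : ∀ v (q : G.Walk v r), q.IsPath → q = P v := by
    intro v q hq
    have h1 := hG.isAcyclic.path_unique ⟨q, hq⟩ ⟨P v, hP v⟩
    exact congrArg Subtype.val h1
  refine ⟨fun v => (P v).snd, fun v => (P v).length, ?_, ?_, ?_, ?_⟩
  · have h1 : P r = SimpleGraph.Walk.nil := (huniq r SimpleGraph.Walk.nil SimpleGraph.Walk.IsPath.nil).symm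
    show (P r).snd = r
    rw [h1]
    rfl
  · intro v hv
    show G.Adj v (P v).snd
    apply SimpleGraph.Walk.adj_snd
    intro hn
    exact hv hn.eq
  · intro v hv
    show (P v).length = (P (P v).snd).length + 1
    have h1 := hP v
    cases hq : P v with
    | nil => exact absurd rfl hv
    | cons h q =>
      rw [hq] at h1
      have h2 := huniq _ q (SimpleGraph.Walk.cons_isPath_iff h q |>.1 h1).1
      rw [SimpleGraph.Walk.snd_cons, SimpleGraph.Walk.length_cons, ← h2]
  · intro a b hab
    by_cases hb : b ∈ (P a).support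
    · right
      have hne : a ≠ r := by
        rintro rfl
        have h1 : P a = SimpleGraph.Walk.nil := (huniq a SimpleGraph.Walk.nil SimpleGraph.Walk.IsPath.nil).symm
        rw [h1, SimpleGraph.Walk.support_nil, List.mem_singleton] at hb
        exact hab.ne hb.symm
      refine ⟨hne, ?_⟩
      show (P a).snd = b
      have h1 : (P a).takeUntil b hb = SimpleGraph.Walk.cons hab SimpleGraph.Walk.nil := by
        have h2 := hG.isAcyclic.path_unique ⟨(P a).takeUntil b hb, (hP a).takeUntil hb⟩
          ⟨SimpleGraph.Walk.cons hab SimpleGraph.Walk.nil, by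
            rw [SimpleGraph.Walk.cons_isPath_iff]
            refine ⟨SimpleGraph.Walk.IsPath.nil, ?_⟩
            rw [SimpleGraph.Walk.support_nil, List.mem_singleton]
            exact hab.ne⟩
        exact congrArg Subtype.val h2
      have h3 := (P a).take_spec hb
      rw [h1, SimpleGraph.Walk.cons_append] at h3
      rw [← h3, SimpleGraph.Walk.snd_cons]
    · left
      have hne : b ≠ r := by
        rintro rfl
        exact hb (SimpleGraph.Walk.end_mem_support _)
      refine ⟨hne, ?_⟩
      show (P b).snd = a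
      have h1 := huniq b (SimpleGraph.Walk.cons hab.symm (P a)) (by
        rw [SimpleGraph.Walk.cons_isPath_iff]
        exact ⟨hP a, hb⟩)
      rw [← h1, SimpleGraph.Walk.snd_cons]

/-- The branch with root `x`. -/
def Br {V : Type} (par : V → V) (x : V) : Set V := {v | ∃ k : ℕ, par^[k] v = x}

theorem br_self {V : Type} (par : V → V) (x : V) : x ∈ Br par x := ⟨0, rfl⟩

theorem br_child {V : Type} {par : V → V} {x v : V} (h : par v ∈ Br par x) : v ∈ Br par x := by
  obtain ⟨k, hk⟩ := h
  exact ⟨k + 1, hk⟩

theorem br_par {V : Type} {par : V → V} {x v : V} (h : v ∈ Br par x) (hv : v ≠ x) :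
    par v ∈ Br par x := by
  obtain ⟨k, hk⟩ := h
  cases k with
  | zero => exact absurd hk hv
  | succ k => exact ⟨k, hk⟩

theorem br_root {V : Type} {par : V → V} {x r : V} (hr : par r = r) (hx : x ≠ r) : r ∉ Br par x := by
  rintro ⟨k, hk⟩
  rw [Function.iterate_fixed hr] at hk
  exact hx hk.symm

theorem br_top {V : Type} {par : V → V} {x r v : V} (hr : par r = r) (hx : x ≠ r)
    (h : v ∈ Br par x) (hv : par v = r) : v = x := by
  by_contra hne
  have h1 := br_par h hne
  rw [hv] at h1
  exact br_root hr hx h1

end Pool.Agent.H57.HV2
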