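import Pool.Agent.H57.HV2.Ch
import Pool.Agent.H57.HV2.Ev

/-!
# Three branches
-/

set_option autoImplicit false

namespace Pool.Agent.H57.HV2

open Finset Lob Pool.Agent.H57.HV

theorem exists_fin {V : Type} [Fintype V] (p : V → Prop) : ∃ S : Finset V, ∀ v, v ∈ S ↔ p v := by
  classical
  exact ⟨univ.filter p, fun v => by rw [mem_filter]; exact ⟨fun h => h.2, fun h => ⟨mem_univ _, h⟩⟩⟩

theorem not_lv_of_child {V : Type} {G : SimpleGraph V} {r : V} {par : V → V} {dep : V → ℕ}
    (h : Rt G r par dep) {v : V} (hv : v ≠ r) : par v ∉ lv G r := by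
  intro hl
  exact hv (hl.2 v (h.adj v hv).symm)

theorem not_lv_of_par {V : Type} {G : SimpleGraph V} {r : V} {par : V → V} {dep : V → ℕ}
    (h : Rt G r par dep) {v : V} (hv : par v ≠ r) : v ∉ lv G r := by
  intro hl
  have hvr : v ≠ r := by
    rintro rfl
    exact G.loopless.irrefl v hl.1
  exact hv (hl.2 _ (h.adj v hvr))

theorem root_not_lv {V : Type} (G : SimpleGraph V) (r : V) : r ∉ lv G r :=
  fun h => G.loopless.irrefl r h.1

/-- The unit vectors. -/
def un {V : Type} [DecidableEq V] (v : V) : V → ℤ := Pi.single v 1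

theorem un_same {V : Type} [DecidableEq V] (v : V) : un v v = 1 := Pi.single_eq_same _ _

theorem un_ne {V : Type} [DecidableEq V] {v w : V} (h : w ≠ v) : un v w = 0 :=
  Pi.single_eq_of_ne h _

theorem un_pos {V : Type} [DecidableEq V] (v : V) : (0 : V → ℤ) < un v := by
  rw [Pi.lt_def]
  refine ⟨fun w => ?_, v, by rw [un_same]; exact one_pos⟩
  by_cases h : w = v
  · rw [h, un_same]
    exact zero_le_one
  · rw [un_ne h]
    exact le_rfl

/-- The vectors with a given coordinate zero. -/
def kc {V : Type} (j : V) : AddSubgroup (V → ℤ) where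
  carrier := {w | w j = 0}
  add_mem' := by
    intro a b ha hb
    rw [Set.mem_ofPred_eq] at *
    rw [Pi.add_apply, ha, hb, add_zero]
  zero_mem' := rfl
  neg_mem' := by
    intro a ha
    rw [Set.mem_ofPred_eq] at *
    rw [Pi.neg_apply, ha, neg_zero]

theorem mem_kc {V : Type} (j : V) (w : V → ℤ) : w ∈ kc j ↔ w j = 0 := Iff.rfl

/-- The vectors with `w r * A = w a * B`. -/
def kp {V : Type} (r a : V) (A B : ℤ) : AddSubgroup (V → ℤ) where
  carrier := {w | w r * A = w a * B}
  add_mem' := by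
    intro a b ha hb
    rw [Set.mem_ofPred_eq] at *
    rw [Pi.add_apply, Pi.add_apply, add_mul, add_mul, ha, hb]
  zero_mem' := by
    rw [Set.mem_ofPred_eq]
    simp
  neg_mem' := by
    intro a ha
    rw [Set.mem_ofPred_eq] at *
    rw [Pi.neg_apply, Pi.neg_apply, neg_mul, neg_mul, ha]

theorem mem_kp {V : Type} (r a : V) (A B : ℤ) (w : V → ℤ) : w ∈ kp r a A B ↔ w r * A = w a * B :=
  Iff.rfl

theorem three {V : Type} [Fintype V] (G : SimpleGraph V) (r s : V) {par : V → V} {dep : V → ℕ}
    (h : Rt G r par dep) (hs : par s = r) (hsl : s ∉ lv G r) (x a b : V) (hxa : x ≠ a)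
    (hxb : x ≠ b) (hab : a ≠ b) (hxr : x ≠ r) (hxs : x ≠ s) (har : a ≠ r) (has : a ≠ s)
    (hbr : b ≠ r) (hbs : b ≠ s) (hx1 : par x = r ∨ par x = s) (ha1 : par a = r ∨ par a = s)
    (hb1 : par b = r ∨ par b = s) (x' a' b' : V) (hx2 : par x' = x) (ha2 : par a' = a)
    (hb2 : par b' = b) : CL G r := by
  classical
  -- the vertices with label zero are closed under parents
  obtain ⟨Z, hZ⟩ : ∃ Z : V → Prop, ∀ v, Z v ↔ v = r ∨ v = s := ⟨fun v => v = r ∨ v = s, fun _ => Iff.rfl⟩
  have hZp : ∀ v, Z v → Z (par v) := by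
    intro v hv
    rw [hZ] at hv ⊢
    rcases hv with hv | hv
    · left
      rw [hv, h.root]
    · left
      rw [hv, hs]
  have hZi : ∀ (k : ℕ) v, Z v → Z (par^[k] v) := by
    intro k
    induction k with
    | zero => exact fun v hv => hv
    | succ k ih => exact fun v hv => ih (par v) (hZp v hv)
  have hZr : Z r := (hZ r).2 (Or.inl rfl)
  have hZs : Z s := (hZ s).2 (Or.inr rfl)
  have hZx : ¬ Z x := by
    rw [hZ, not_or]
    exact ⟨hxr, hxs⟩
  have hZa : ¬ Z a := by
    rw [hZ, not_or]
    exact ⟨har, has⟩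
  have hZb : ¬ Z b := by
    rw [hZ, not_or]
    exact ⟨hbr, hbs⟩
  rw [← hZ] at hx1 ha1 hb1
  have hZB : ∀ y, ¬ Z y → ∀ v, v ∈ Br par y → ¬ Z v := by
    rintro y hy v ⟨k, hk⟩ hv
    exact hy (hk ▸ hZi k v hv)
  -- a vertex of a branch with parent in `Z` is the root of the branch
  have htop : ∀ y, ¬ Z y → ∀ v, v ∈ Br par y → Z (par v) → v = y := by
    intro y hy v hv hvz
    by_contra hne
    exact hZB y hy _ (br_par hv hne) hvz
  have hdisj : ∀ y z, ¬ Z y → ¬ Z z → Z (par y) → Z (par z) → y ≠ z → ∀ v, v ∈ Br par y →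
      v ∉ Br par z := by
    rintro y z hy hz hy1 hz1 hyz v ⟨k, hk⟩ ⟨l, hl⟩
    rcases lt_trichotomy k l with h1 | h1 | h1
    · obtain ⟨m, rfl⟩ : ∃ m, l = m + 1 + k := ⟨l - k - 1, by omega⟩
      rw [Function.iterate_add_apply, hk] at hl
      have h2 := hZi m (par y) hy1
      have h3 : par^[m] (par y) = z := hl
      rw [h3] at h2
      exact hz h2
    · rw [h1, hl] at hk
      exact hyz hk.symm
    · obtain ⟨m, rfl⟩ : ∃ m, k = m + 1 + l := ⟨k - l - 1, by omega⟩
      rw [Function.iterate_add_apply, hl] at hk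
      have h2 := hZi m (par z) hz1
      have h3 : par^[m] (par z) = y := hk
      rw [h3] at h2
      exact hy h2
  -- the roots and the other vertices
  obtain ⟨X, hX⟩ := exists_fin (fun v => v ∉ lv G r ∧ ¬ Z v ∧ Z (par v))
  obtain ⟨YA, hYA⟩ := exists_fin (fun v => ¬ Z (par v) ∧ v ∉ Br par x ∧ v ∉ Br par b)
  obtain ⟨YB, hYB⟩ := exists_fin (fun v => ¬ Z (par v) ∧ v ∈ Br par b)
  obtain ⟨YT, hYT⟩ := exists_fin (fun v => ¬ Z (par v) ∧ v ∈ Br par x)
  have hnZ : ∀ v, ¬ Z (par v) → v ≠ r ∧ v ≠ s ∧ v ∉ lv G r ∧ par v ∉ lv G r := by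
    intro v hv
    have h1 : v ≠ r := by
      rintro rfl
      exact hv (hZp _ hZr)
    have h2 : v ≠ s := by
      rintro rfl
      exact hv (hZp _ hZs)
    refine ⟨h1, h2, not_lv_of_par h ?_, not_lv_of_child h h1⟩
    intro h3
    rw [h3] at hv
    exact hv hZr
  have hnlr : ∀ y y', ¬ Z y → par y' = y → y ∉ lv G r ∧ ¬ Z (par y') := by
    intro y y' hy hy'
    have h1 : ¬ Z (par y') := by
      rw [hy']
      exact hy
    have h2 := (hnZ y' h1).2.2.2
    rw [hy'] at h2
    exact ⟨h2, h1⟩
  have hxX : x ∈ X := (hX x).2 ⟨(hnlr x x' hZx hx2).1, hZx, hx1⟩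
  have haX : a ∈ X := (hX a).2 ⟨(hnlr a a' hZa ha2).1, hZa, ha1⟩
  have hbX : b ∈ X := (hX b).2 ⟨(hnlr b b' hZb hb2).1, hZb, hb1⟩
  have hd : ∀ v, ¬ Z (par v) → dep (par v) < dep v := by
    intro v hv
    have := h.dep v (hnZ v hv).1
    omega
  have hXZ : ∀ v, v ∈ X → Z (par v) := fun v hv => ((hX v).1 hv).2.2
  have hb'B : b' ∈ YB := (hYB b').2 ⟨(hnlr b b' hZb hb2).2, br_child (by rw [hb2]; exact br_self _ _)⟩
  have hx'T : x' ∈ YT := (hYT x').2 ⟨(hnlr x x' hZx hx2).2, br_child (by rw [hx2]; exact br_self _ _)⟩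
  have ha'A : a' ∈ YA := by
    have h1 : a' ∈ Br par a := br_child (by rw [ha2]; exact br_self _ _)
    exact (hYA a').2 ⟨(hnlr a a' hZa ha2).2, hdisj a x hZa hZx ha1 hx1 hxa.symm a' h1,
      hdisj a b hZa hZb ha1 hb1 hab a' h1⟩
  -- the chain
  have h0 : Ch par X ∅ (fun v => un v) (un r : V → ℤ) (un r) :=
    Ch.empty par X _ _ (fun v _ => un_pos v) (un_pos r)
  obtain ⟨f1, M1, hA, hA1, hA2, hA3, hA4⟩ := h0.complete dep YA
    (fun v hv hvX => ((hYA v).1 hv).1 (hXZ v hvX)) (fun v _ => notMem_empty v) (by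
      intro v hv
      rw [hYA] at hv
      have h1 := hnZ v hv.1
      by_cases h2 : Z (par (par v))
      · left
        rw [hX]
        exact ⟨h1.2.2.2, hv.1, h2⟩
      · right; right
        rw [hYA]
        exact ⟨h2, fun h3 => hv.2.1 (br_child h3), fun h3 => hv.2.2 (br_child h3)⟩)
    (fun v hv => hd v ((hYA v).1 hv).1)
  rw [empty_union] at hA
  obtain ⟨f2, M2, hB, hB1, hB2, hB3, hB4⟩ := hA.complete dep YB
    (fun v hv hvX => ((hYB v).1 hv).1 (hXZ v hvX)) (by
      intro v hv hvA
      exact ((hYA v).1 hvA).2.2 ((hYB v).1 hv).2) (by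
      intro v hv
      rw [hYB] at hv
      have h1 := hnZ v hv.1
      have h4 : par v ∈ Br par b := by
        apply br_par hv.2
        rintro rfl
        exact hv.1 hb1
      by_cases h2 : Z (par (par v))
      · left
        rw [hX]
        exact ⟨h1.2.2.2, hv.1, h2⟩
      · right; right
        rw [hYB]
        exact ⟨h2, h4⟩)
    (fun v hv => hd v ((hYB v).1 hv).1)
  obtain ⟨f3, M3, hT, hT1, hT2, hT3, hT4⟩ := hB.complete dep YT
    (fun v hv hvX => ((hYT v).1 hv).1 (hXZ v hvX)) (by
      intro v hv hvA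
      rw [hYT] at hv
      rcases mem_union.1 hvA with h1 | h1
      · exact ((hYA v).1 h1).2.1 hv.2
      · exact hdisj x b hZx hZb hx1 hb1 hxb v hv.2 ((hYB v).1 h1).2) (by
      intro v hv
      rw [hYT] at hv
      have h1 := hnZ v hv.1
      have h4 : par v ∈ Br par x := by
        apply br_par hv.2
        rintro rfl
        exact hv.1 hx1
      by_cases h2 : Z (par (par v))
      · left
        rw [hX]
        exact ⟨h1.2.2.2, hv.1, h2⟩
      · right; right
        rw [hYT]
        exact ⟨h2, h4⟩)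
    (fun v hv => hd v ((hYT v).1 hv).1)
  -- the labels are kept
  have hAB : ∀ v, v ∈ YA → v ∉ YB := fun v h1 h2 => ((hYA v).1 h1).2.2 ((hYB v).1 h2).2
  have hAT : ∀ v, v ∈ YA → v ∉ YT := fun v h1 h2 => ((hYA v).1 h1).2.1 ((hYT v).1 h2).2
  have hBT : ∀ v, v ∈ YB → v ∉ YT := fun v h1 h2 =>
    hdisj x b hZx hZb hx1 hb1 hxb v ((hYT v).1 h2).2 ((hYB v).1 h1).2
  have hXf1 : ∀ v, v ∈ X → f1 v = un v := fun v hv =>
    hA1 v (fun h1 => ((hYA v).1 h1).1 (hXZ v hv))
  have hXf2 : ∀ v, v ∈ X → f2 v = un v := fun v hv => by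
    rw [hB1 v (fun h1 => ((hYB v).1 h1).1 (hXZ v hv)), hXf1 v hv]
  have hXf : ∀ v, v ∈ X → f3 v = un v := fun v hv => by
    rw [hT1 v (fun h1 => ((hYT v).1 h1).1 (hXZ v hv)), hXf2 v hv]
  -- nonnegative coordinates
  have hC : ∀ v, ¬ Z (par v) → v ∈ YA ∪ YB ∪ YT := by
    intro v hv
    rw [mem_union, mem_union, hYA, hYB, hYT]
    by_cases h1 : v ∈ Br par x
    · exact Or.inr ⟨hv, h1⟩
    · by_cases h2 : v ∈ Br par b
      · exact Or.inl (Or.inr ⟨hv, h2⟩)
      · exact Or.inl (Or.inl ⟨hv, h1, h2⟩)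
  have hCZ : ∀ v, v ∈ YA ∪ YB ∪ YT → ¬ Z (par v) := by
    intro v hv
    rw [mem_union, mem_union, hYA, hYB, hYT] at hv
    rcases hv with (hv | hv) | hv
    · exact hv.1
    · exact hv.1
    · exact hv.1
  have hb0 : ∀ j, j ≠ r → (un r : V → ℤ) j = 0 := fun j hj => un_ne hj
  -- coordinates of the labels
  have hA5 : ∀ j, j = x ∨ j = b → (∀ v ∈ YA, f3 v j = 0) ∧ M1 j = 0 := by
    intro j hj
    have hjr : j ≠ r := by
      rcases hj with rfl | rfl
      · exact hxr
      · exact hbr
    obtain ⟨h1, h2⟩ := hA4 (kc j) ((mem_kc j _).2 (hb0 j hjr)) (by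
      intro v hv hpv
      rw [mem_kc]
      apply un_ne
      intro hjp
      rw [hYA] at hv
      rcases hj with rfl | rfl
      · exact hv.2.1 (br_child (by rw [← hjp]; exact br_self _ _))
      · exact hv.2.2 (br_child (by rw [← hjp]; exact br_self _ _)))
    refine ⟨fun v hv => ?_, h2⟩
    rw [hT1 v (hAT v hv), hB1 v (hAB v hv)]
    exact h1 v hv
  have hbtop : ∀ v, v ∈ YB → par v ∉ YB → par v = b := by
    intro v hv hpv
    rw [hYB] at hv hpv
    have h4 : par v ∈ Br par b := by
      apply br_par hv.2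
      rintro rfl
      exact hv.1 hb1
    apply htop b hZb _ h4
    by_contra h5
    exact hpv ⟨h5, h4⟩
  have hxtop : ∀ v, v ∈ YT → par v ∉ YT → par v = x := by
    intro v hv hpv
    rw [hYT] at hv hpv
    have h4 : par v ∈ Br par x := by
      apply br_par hv.2
      rintro rfl
      exact hv.1 hx1
    apply htop x hZx _ h4
    by_contra h5
    exact hpv ⟨h5, h4⟩
  have hB5 : (∀ v ∈ YB, f3 v x = 0) ∧ M2 x = 0 := by
    obtain ⟨h1, h2⟩ := hB4 (kc x) ((mem_kc x _).2 (hA5 x (Or.inl rfl)).2) (by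
      intro v hv hpv
      rw [hbtop v hv hpv, hXf1 b hbX, mem_kc]
      exact un_ne hxb)
    refine ⟨fun v hv => ?_, h2⟩
    rw [hT1 v (hBT v hv)]
    exact h1 v hv
  have hB6 : (∀ v ∈ YB, f3 v r * M1 a = f3 v a * M1 r) ∧ M2 r * M1 a = M2 a * M1 r := by
    obtain ⟨h1, h2⟩ := hB4 (kp r a (M1 a) (M1 r)) ((mem_kp _ _ _ _ _).2 (mul_comm _ _)) (by
      intro v hv hpv
      rw [hbtop v hv hpv, hXf1 b hbX, mem_kp, un_ne hbr.symm, un_ne hab]
      ring)
    refine ⟨fun v hv => ?_, h2⟩
    rw [hT1 v (hBT v hv)]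
    exact h1 v hv
  have hM1a : 1 ≤ M1 a := by
    have h1 := hA.sum a' ha'A
    rw [ha2, hXf1 a haX] at h1
    have h2 : f1 a' a + un a a ≤ M1 a := h1 a
    rw [un_same] at h2
    have h3 : 0 ≤ f1 a' a := (hA.pos a' (Or.inr ha'A)).le a
    omega
  have hM2a : 1 ≤ M2 a := hM1a.trans (hB2 a)
  have hM2b : 1 ≤ M2 b := by
    have h1 := hB.sum b' (mem_union_right _ hb'B)
    rw [hb2, hXf2 b hbX] at h1
    have h2 : f2 b' b + un b b ≤ M2 b := h1 b
    rw [un_same] at h2
    have h3 : 0 ≤ f2 b' b := (hB.pos b' (Or.inr (mem_union_right _ hb'B))).le b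
    omega
  have hM3x : f3 x' + un x ≤ M3 := by
    have h1 := hT.sum x' (mem_union_right _ hx'T)
    rw [hx2, hXf x hxX] at h1
    exact h1
  have hx'pos : 0 < f3 x' := hT.pos x' (Or.inr (mem_union_right _ hx'T))
  -- the labels of the last branch
  obtain ⟨hT5, S1, P1, hM3⟩ : (∀ v, v ∈ YT ∨ v = x → ∃ α β : ℤ, f3 v = α • M2 + β • un x) ∧
      ∃ S1 P1 : ℤ, M3 = S1 • M2 + P1 • un x := by
    obtain ⟨h1, h2⟩ := hT4 (AddSubgroup.closure {M2, un x})
      (AddSubgroup.subset_closure (Set.mem_insert _ _)) (by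
      intro v hv hpv
      rw [hxtop v hv hpv, hXf2 x hxX]
      exact AddSubgroup.subset_closure (Set.mem_insert_of_mem _ rfl))
    constructor
    · rintro v (hv | hv)
      · obtain ⟨m, n, hmn⟩ := AddSubgroup.mem_closure_pair.1 (h1 v hv)
        exact ⟨m, n, hmn.symm⟩
      · rw [hv, hXf x hxX]
        exact ⟨0, 1, by rw [zero_smul, one_smul, zero_add]⟩
    · obtain ⟨m, n, hmn⟩ := AddSubgroup.mem_closure_pair.1 h2
      exact ⟨m, n, hmn.symm⟩
  have hTlt : ∀ v, v ∈ YT ∨ v = x → f3 v < M3 := by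
    rintro v (hv | hv)
    · exact hT.lt v (mem_union_right _ hv)
    · rw [hv, hXf x hxX]
      exact lt_of_lt_of_le (lt_add_of_pos_left _ hx'pos) hM3x
  -- the final labelling
  obtain ⟨f, hf⟩ : ∃ f : V → (V → ℤ), ∀ v, f v = if Z v then 0 else f3 v := ⟨_, fun _ => rfl⟩
  have hfZ : ∀ v, Z v → f v = 0 := fun v hv => by rw [hf, if_pos hv]
  have hfn : ∀ v, ¬ Z v → f v = f3 v := fun v hv => by rw [hf, if_neg hv]
  have hpos3 : ∀ v, v ∉ lv G r → ¬ Z v → 0 < f3 v := by
    intro v hv hvZ
    apply hT.pos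
    by_cases h1 : Z (par v)
    · exact Or.inl ((hX v).2 ⟨hv, hvZ, h1⟩)
    · exact Or.inr (hC v h1)
  have hinj3 : ∀ p, p ∉ lv G r → ¬ Z p → ∀ q, q ∉ lv G r → ¬ Z q → f3 p = f3 q → p = q := by
    intro p hp hpZ q hq hqZ e
    by_cases h1 : Z (par p)
    · have hpX := (hX p).2 ⟨hp, hpZ, h1⟩
      by_cases h2 : Z (par q)
      · have hqX := (hX q).2 ⟨hq, hqZ, h2⟩
        rw [hXf p hpX, hXf q hqX] at e
        by_contra hne
        have h3 := congrFun e p
        rw [un_same, un_ne hne] at h3
        exact one_ne_zero h3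
      · have h3 : un r r ≤ f3 q r := hT.le q (hC q h2) r
        rw [← e, hXf p hpX, un_same, un_ne] at h3
        · omega
        · rintro rfl
          exact hpZ hZr
    · by_cases h2 : Z (par q)
      · have hqX := (hX q).2 ⟨hq, hqZ, h2⟩
        have h3 : un r r ≤ f3 p r := hT.le p (hC p h1) r
        rw [e, hXf q hqX, un_same, un_ne] at h3
        · omega
        · rintro rfl
          exact hqZ hZr
      · exact hT.inj p (hC p h1) q (hC q h2) e
  obtain ⟨R, hR⟩ : ∃ R : V → ℤ, R = M3 - un r := ⟨_, rfl⟩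
  have hRx : R x = P1 := by
    rw [hR, hM3, Pi.sub_apply, Pi.add_apply, Pi.smul_apply, Pi.smul_apply, hB5.2, un_same,
      un_ne hxr]
    simp
  have hP1 : 1 ≤ P1 := by
    have h1 : f3 x' x + un x x ≤ M3 x := hM3x x
    have h2 : 0 ≤ f3 x' x := hx'pos.le x
    rw [un_same] at h1
    have h3 : M3 x = P1 := by
      rw [hM3, Pi.add_apply, Pi.smul_apply, Pi.smul_apply, hB5.2, un_same]
      simp
    omega
  have hfx0 : ∀ q, q ∉ lv G r → ¬ (q ∈ YT ∨ q = x) → f q x = 0 := by
    intro q hq hqT
    rw [not_or] at hqT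
    by_cases hqZ : Z q
    · rw [hfZ q hqZ]
      rfl
    · rw [hfn q hqZ]
      by_cases h1 : Z (par q)
      · rw [hXf q ((hX q).2 ⟨hq, hqZ, h1⟩)]
        exact un_ne (fun e => hqT.2 e.symm)
      · have h2 := hC q h1
        rw [mem_union, mem_union] at h2
        rcases h2 with (h2 | h2) | h2
        · exact (hA5 x (Or.inl rfl)).1 q h2
        · exact hB5.1 q h2
        · exact absurd h2 hqT.1
  -- the main point: no positive multiples
  have main : ∀ p, p ∉ lv G r → ∀ q, q ∉ lv G r → 0 < (f p - f q) x →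
      R x • (f p - f q) = ((f p - f q) x) • R → False := by
    intro p hp q hq hpos e
    have hqx0 : 0 ≤ f q x := by
      by_cases hqZ : Z q
      · rw [hfZ q hqZ]
        exact le_rfl
      · rw [hfn q hqZ]
        exact (hpos3 q hq hqZ).le x
    have hpT : p ∈ YT ∨ p = x := by
      by_contra hcon
      have h1 := hfx0 p hp hcon
      rw [Pi.sub_apply, h1] at hpos
      omega
    have hpZ : ¬ Z p := by
      intro hpZ
      rw [Pi.sub_apply, hfZ p hpZ, Pi.zero_apply] at hpos
      omega
    obtain ⟨α, β, hαβ⟩ := hT5 p hpT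
    have hlt := hTlt p hpT
    rw [hfn p hpZ, hαβ, hRx, hR, hM3] at e
    rw [hfn p hpZ, hαβ] at hpos
    by_cases hqT : q ∈ YT ∨ q = x
    · have hqZ : ¬ Z q := by
        rcases hqT with h1 | h1
        · exact hZB x hZx q ((hYT q).1 h1).2
        · rw [h1]
          exact hZx
      obtain ⟨α', β', hαβ'⟩ := hT5 q hqT
      rw [hfn q hqZ, hαβ'] at e hpos
      obtain ⟨dx, hdx⟩ : ∃ dx, dx = (α • M2 + β • un x - (α' • M2 + β' • un x)) x := ⟨_, rfl⟩
      rw [← hdx] at e hpos
      have ea := congrFun e a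
      have er := congrFun e r
      simp only [Pi.smul_apply, Pi.sub_apply, Pi.add_apply, smul_eq_mul, un_ne hxa.symm,
        un_ne har, un_ne hxr.symm, un_same, mul_zero, add_zero, sub_zero] at ea er
      have e1 : P1 * (α - α') = dx * S1 := by
        have e2 : (P1 * (α - α') - dx * S1) * M2 a = 0 := by linear_combination ea
        rcases mul_eq_zero.1 e2 with e3 | e3
        · linarith
        · omega
      have e4 : dx = 0 := by linear_combination er - M2 r * e1
      omega
    · have hq0 := hfx0 q hq hqT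
      have hdx : (α • M2 + β • un x - f q) x = β := by
        simp only [Pi.smul_apply, Pi.sub_apply, Pi.add_apply, smul_eq_mul, un_same, hB5.2, hq0]
        ring
      rw [hdx] at e hpos
      obtain ⟨k, hk⟩ : ∃ k, k = α * P1 - β * S1 := ⟨_, rfl⟩
      have ej : ∀ j, j ≠ x → P1 * f q j = k * M2 j + β * un r j := by
        intro j hj
        have e1 := congrFun e j
        simp only [Pi.smul_apply, Pi.sub_apply, Pi.add_apply, smul_eq_mul, un_ne hj] at e1
        rw [hk]
        linear_combination (-1 : ℤ) * e1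
      have er := ej r hxr.symm
      rw [un_same] at er
      rw [not_or] at hqT
      by_cases hqZ : Z q
      · have ea := ej a hxa.symm
        rw [hfZ q hqZ, Pi.zero_apply, un_ne har, mul_zero, mul_zero, add_zero] at ea
        rw [hfZ q hqZ, Pi.zero_apply, mul_zero, mul_one] at er
        rcases mul_eq_zero.1 ea.symm with e2 | e2
        · rw [e2] at er
          omega
        · omega
      · rw [hfn q hqZ] at ej er
        by_cases h1 : Z (par q)
        · have hqX := (hX q).2 ⟨hq, hqZ, h1⟩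
          rw [hXf q hqX] at ej er
          have hk0 : k = 0 := by
            by_cases hqa : q = a
            · have eb := ej b hxb.symm
              rw [un_ne (by rw [hqa]; exact hab.symm), un_ne hbr, mul_zero, mul_zero, add_zero] at eb
              rcases mul_eq_zero.1 eb.symm with e2 | e2
              · exact e2
              · omega
            · have ea := ej a hxa.symm
              rw [un_ne (fun e => hqa e.symm), un_ne har, mul_zero, mul_zero, add_zero] at ea
              rcases mul_eq_zero.1 ea.symm with e2 | e2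
              · exact e2
              · omega
          rw [hk0, un_ne (by rintro rfl; exact hqZ hZr)] at er
          omega
        · have h2 := hC q h1
          rw [mem_union, mem_union] at h2
          rcases h2 with (h2 | h2) | h2
          · -- `q` in the first part
            have eb := ej b hxb.symm
            rw [(hA5 b (Or.inr rfl)).1 q h2, un_ne hbr, mul_zero, mul_zero, add_zero] at eb
            have hk0 : k = 0 := by
              rcases mul_eq_zero.1 eb.symm with e2 | e2
              · exact e2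
              · omega
            rw [hk0] at er
            have h3 : un r r ≤ f3 q r := hT.le q (hC q h1) r
            rw [un_same] at h3
            have h4 : P1 ≤ β := by nlinarith
            have h5 : f3 p x ≤ M3 x := hlt.le x
            rw [hαβ, hM3] at h5
            simp only [Pi.smul_apply, Pi.add_apply, smul_eq_mul, un_same, hB5.2] at h5
            have h6 : β = P1 := by omega
            have h7 : α = S1 := by
              rw [hk0, h6] at hk
              have h8 : P1 * (α - S1) = 0 := by linear_combination (-1 : ℤ) * hk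
              rcases mul_eq_zero.1 h8 with h9 | h9
              · omega
              · omega
            rw [hαβ, hM3, h6, h7] at hlt
            exact lt_irrefl _ hlt
          · -- `q` in the second part
            have ea := ej a hxa.symm
            rw [un_ne har] at ea
            have h3 := hB6.1 q h2
            have h4 := hB6.2
            have h5 : β * M1 a = 0 := by
              linear_combination P1 * h3 - k * h4 - M1 a * er + M1 r * ea
            rcases mul_eq_zero.1 h5 with h6 | h6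
            · omega
            · omega
          · exact hqT.1 h2
  have hR0 : R x ≠ 0 := by
    rw [hRx]
    omega
  refine cl_of_mod G r f R s x hsl (hfZ r hZr) ?_ ?_
  · intro p hp hps q hq hqs e
    rcases lt_trichotomy ((f p - f q) x) 0 with h1 | h1 | h1
    · exfalso
      refine main q hq p hp ?_ ?_
      · have h2 : (f q - f p) x = -((f p - f q) x) := by
          rw [Pi.sub_apply, Pi.sub_apply]
          ring
        omega
      · have h2 : f q - f p = -(f p - f q) := (neg_sub _ _).symm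
        rw [h2, smul_neg, e, Pi.neg_apply, neg_smul]
    · rw [h1, zero_smul] at e
      have h2 : f p - f q = 0 := by
        rcases smul_eq_zero.1 e with h3 | h3
        · exact absurd h3 hR0
        · exact h3
      have h3 : f p = f q := sub_eq_zero.1 h2
      by_cases hpZ : Z p
      · by_cases hqZ : Z q
        · rw [hZ] at hpZ hqZ
          rcases hpZ with h4 | h4
          · rcases hqZ with h5 | h5
            · rw [h4, h5]
            · exact absurd h5 hqs
          · exact absurd h4 hps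
        · rw [hfZ p hpZ, hfn q hqZ] at h3
          exact absurd h3 (hpos3 q hq hqZ).ne
      · by_cases hqZ : Z q
        · rw [hfZ q hqZ, hfn p hpZ] at h3
          exact absurd h3 (hpos3 p hp hpZ).ne'
        · rw [hfn p hpZ, hfn q hqZ] at h3
          exact hinj3 p hp hpZ q hq hqZ h3
    · exact absurd e (fun e => main p hp q hq h1 e)
  · intro v hv hvs
    have hedge : ∀ y, y ∈ YA ∪ YB ∪ YT → y ∉ lv G r ∧ par y ∉ lv G r ∧ G.Adj y (par y) ∧
        f y + f (par y) = f3 y + f3 (par y) := by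
      intro y hy
      have h1 := hCZ y hy
      have h2 := hnZ y h1
      refine ⟨h2.2.2.1, h2.2.2.2, h.adj y h2.1, ?_⟩
      rw [hfn _ h1, hfn y (by
        rw [hZ, not_or]
        exact ⟨h2.1, h2.2.1⟩)]
    by_cases hvZ : Z v
    · -- `v = r`, `s ≠ r`
      have hvr : v = r := by
        rcases (hZ v).1 hvZ with h1 | h1
        · exact h1
        · exact absurd h1 hvs
      have hsr : s ≠ r := fun e => hvs (by rw [hvr, e])
      refine ⟨s, r, hsl, root_not_lv G r, ?_, 0, ?_⟩
      · have h1 := h.adj s hsr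
        rw [hs] at h1
        exact h1
      · rw [hfZ s hZs, hfZ r hZr, hfZ v hvZ, zero_smul]
    · have hvr : v ≠ r := by
        rintro rfl
        exact hvZ hZr
      by_cases h1 : Z (par v)
      · refine ⟨v, par v, hv, not_lv_of_child h hvr, h.adj v hvr, 0, ?_⟩
        rw [hfZ _ h1, zero_smul]
      · rcases hT.cov v (hC v h1) with h2 | ⟨y, hy, h2⟩
        · rcases hT.fin with ⟨h3, _⟩ | ⟨y, hy, h3⟩
          · have h4 := hC v h1
            rw [h3] at h4
            exact absurd h4 (notMem_empty v)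
          · obtain ⟨h4, h5, h6, h7⟩ := hedge y hy
            refine ⟨y, par y, h4, h5, h6, 1, ?_⟩
            rw [h7, h3, hfn v hvZ, h2, one_smul, hR]
            abel
        · obtain ⟨h4, h5, h6, h7⟩ := hedge y hy
          refine ⟨y, par y, h4, h5, h6, 0, ?_⟩
          rw [h7, h2, hfn v hvZ, zero_smul, add_zero]

end Pool.Agent.H57.HV2
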